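import Mathlib

set_option autoImplicit false

namespace Pool.Agent.TH500.QS

set_option maxRecDepth 200000 in
/-- The key positivity statement (polynomial with non-negative coefficients after the shifts). -/
theorem keyPos (X w t i : ℤ) (hX : 0 ≤ X) (hw : 0 ≤ w) (ht : 0 ≤ t) (hi : 0 ≤ i)
    (x z T j s M K : ℤ) (hx : x = X + 1) (hz : z = x ^ 2 + 4 + w) (hT : T = 2 * z + t)
    (hj : j = i + 1) (hs : s = z + 2 * x - 1)
    (hM : M = T * (z * z + 2 * X * z + 2 * X * X - 1) - x * X * (z + 1))
    (hK : K = T * (x * (x + z) + j * s) + x * X * (z + 1)) :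
    0 < j * (M * M * ((T + X) * (T + 2 * X) - s * (T + X - 1))
        + K * M * (2 * (T + X) * (T + X) - s * (T + X - 1)))
      + s * x * M * M + s * K * M * ((T + x) + z * (T + X - 1))
      - s * (T + X - 1) * (T - z) * K * K := by
  subst hx; subst hz; subst hT; subst hj; subst hs; subst hM; subst hK
  ring_nf
  positivity

end Pool.Agent.TH500.QS
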