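import Pool.Agent.TH500.QS.Arith

set_option autoImplicit false

namespace Pool.Agent.TH500.QS

/-- The case analysis, with the two basic relations in the variables `T = e z`, `s = z + 2 x - 1`,
`l = s + i`, `g = e - 1 + c`. -/
theorem cases (X z e i c T s M K Q1 Q2 : ℤ) (hX : 0 ≤ X) (hzx : X + 5 ≤ z) (he : 2 ≤ e)
    (hT : T = e * z) (hs : s = z + 2 * (X + 1) - 1)
    (hM : M = T * (z * z + 2 * X * z + 2 * X * X - 1) - (X + 1) * X * (z + 1))
    (hK : K = T * ((X + 1) * ((X + 1) + z) + i * s) + (X + 1) * X * (z + 1))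
    (hQ1 : Q1 = (T + X) * (T + 2 * X) - s * (T + X - 1))
    (hQ2 : Q2 = 2 * (T + X) * (T + X) - s * (T + X - 1))
    (E6' : c * M = (e - 1) * K)
    (Req : s * ((e - 1) * (X + 1) + c * (T + (X + 1)) - z * c * (c - 1) * (T + X - 1))
      = - i * ((e - 1) * Q1 + c * Q2))
    (Bpos : 0 < (e - 1) * Q1 + c * Q2) : 0 < i ∧ 0 < c := by
  have he1 : 0 < e - 1 := by linarith
  have hzpos : 0 < z := by linarith
  have hT2 : 2 * z ≤ T := by
    rw [hT]; exact mul_le_mul_of_nonneg_right he (by linarith)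
  have hT0 : 0 < T := by linarith
  have hs0 : 0 < s := by rw [hs]; linarith
  have hTs : s + 1 ≤ T + X := by rw [hs]; linarith
  have hTX : 0 < T + X - 1 := by linarith
  have hTe : (e - 1) * z = T - z := by rw [hT]; ring
  have hMpos : 0 < M := by
    have hA : (X + 1) * X < z * z + 2 * X * z + 2 * X * X - 1 := by
      clear E6' Req Bpos hM hK hQ1 hQ2
      nlinarith
    have h1 : 0 ≤ (X + 1) * X := by positivity
    have h2 : (z + 1) * ((X + 1) * X) < T * (z * z + 2 * X * z + 2 * X * X - 1) := by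
      calc (z + 1) * ((X + 1) * X) < (z + 1) * (z * z + 2 * X * z + 2 * X * X - 1) :=
            mul_lt_mul_of_pos_left hA (by linarith)
        _ ≤ T * (z * z + 2 * X * z + 2 * X * X - 1) :=
            mul_le_mul_of_nonneg_right (by linarith) (by linarith)
    rw [hM]
    linarith
  -- Q1 > s x
  have hQ1pos : s * (X + 1) < Q1 := by
    have h1 : s * (T + 2 * X) < (T + X) * (T + 2 * X) :=
      mul_lt_mul_of_pos_right (by linarith) (by linarith)
    have h2 : Q1 - s * (X + 1) = (T + X) * (T + 2 * X) - s * (T + 2 * X) := by rw [hQ1]; ring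
    linarith
  -- Q2 ≥ s (T + x)
  have hQ2pos : s * (T + (X + 1)) ≤ Q2 := by
    have h1 : s * (T + X) ≤ (T + X) * (T + X) :=
      mul_le_mul_of_nonneg_right (by linarith) (by linarith)
    have h2 : Q2 - s * (T + (X + 1)) = 2 * ((T + X) * (T + X) - s * (T + X)) := by rw [hQ2]; ring
    linarith
  have hxs : 0 < s * (X + 1) := mul_pos hs0 (by linarith)
  rcases lt_trichotomy c 0 with hc | hc | hc
  · -- c < 0
    exfalso
    have h1 : c * M < 0 := mul_neg_of_neg_of_pos hc hMpos
    rw [E6'] at h1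
    have h2 : K < 0 := by
      by_contra hcon
      push Not at hcon
      have := mul_nonneg he1.le hcon
      linarith
    have hi : i < 0 := by
      by_contra hcon
      push Not at hcon
      have : 0 ≤ K := by rw [hK]; positivity
      linarith
    have h3 : 0 < - i * ((e - 1) * Q1 + c * Q2) := mul_pos (by linarith) Bpos
    rw [← Req] at h3
    have h4 : 0 < (e - 1) * (X + 1) + c * (T + (X + 1)) - z * c * (c - 1) * (T + X - 1) :=
      (pos_iff_pos_of_mul_pos h3).1 hs0
    have h5 : 0 ≤ z * c * (c - 1) * (T + X - 1) := by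
      have h50 : 0 ≤ c * (c - 1) :=
        mul_nonneg_of_nonpos_of_nonpos hc.le (by linarith)
      have h6 : z * c * (c - 1) * (T + X - 1) = z * (c * (c - 1)) * (T + X - 1) := by ring
      rw [h6]
      have hz0 : 0 ≤ z := by linarith
      exact mul_nonneg (mul_nonneg hz0 h50) hTX.le
    have h7 : c * (T + (X + 1)) ≤ (-1) * (T + (X + 1)) :=
      mul_le_mul_of_nonneg_right (by linarith) (by linarith)
    have h8 : (e - 1) * (X + 1) ≤ (e - 1) * z := mul_le_mul_of_nonneg_left (by linarith) he1.le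
    linarith
  · -- c = 0
    exfalso
    subst hc
    have h1 : (e - 1) * K = 0 := by rw [← E6']; ring
    have h2 : K = 0 := (mul_eq_zero.1 h1).resolve_left he1.ne'
    have hi : i < 0 := by
      by_contra hcon
      push Not at hcon
      have : 0 < K := by
        rw [hK]
        have h3 : 0 < T * ((X + 1) * ((X + 1) + z) + i * s) := by
          apply mul_pos hT0
          have : 0 < (X + 1) * ((X + 1) + z) := mul_pos (by linarith) (by linarith)
          have := mul_nonneg hcon hs0.le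
          linarith
        have : 0 ≤ (X + 1) * X * (z + 1) := by positivity
        linarith
      linarith
    have h3 : s * ((e - 1) * (X + 1)) = - i * ((e - 1) * Q1) := by
      linear_combination Req
    have h4 : s * (X + 1) = - i * Q1 := by
      have h5 : (e - 1) * (s * (X + 1) - (- i * Q1)) = 0 := by linear_combination h3
      have := (mul_eq_zero.1 h5).resolve_left he1.ne'
      linarith
    have h6 : 1 * Q1 ≤ - i * Q1 := mul_le_mul_of_nonneg_right (by linarith) (by linarith)
    linarith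
  · -- c > 0
    refine ⟨?_, hc⟩
    by_contra hi0
    push Not at hi0
    rcases hi0.lt_or_eq with hi | hi
    · -- i < 0
      have h1 : 1 * ((e - 1) * Q1 + c * Q2) ≤ - i * ((e - 1) * Q1 + c * Q2) :=
        mul_le_mul_of_nonneg_right (by linarith) Bpos.le
      rw [← Req] at h1
      have h2 : (e - 1) * (s * (X + 1)) < (e - 1) * Q1 := mul_lt_mul_of_pos_left hQ1pos he1
      have h3 : c * (s * (T + (X + 1))) ≤ c * Q2 := mul_le_mul_of_nonneg_left hQ2pos hc.le
      have h4 : 0 ≤ s * (z * c * (c - 1) * (T + X - 1)) := by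
        have h5 : 0 ≤ c - 1 := by linarith
        have h6 : 0 ≤ z := by linarith
        exact mul_nonneg hs0.le (mul_nonneg (mul_nonneg (mul_nonneg h6 hc.le) h5) hTX.le)
      have h5 : s * ((e - 1) * (X + 1) + c * (T + (X + 1)) - z * c * (c - 1) * (T + X - 1))
          = (e - 1) * (s * (X + 1)) + c * (s * (T + (X + 1)))
            - s * (z * c * (c - 1) * (T + X - 1)) := by ring
      rw [h5] at h1
      linarith
    · -- i = 0
      subst hi
      have h1 : s * ((e - 1) * (X + 1) + c * (T + (X + 1)) - z * c * (c - 1) * (T + X - 1)) = 0 := by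
        rw [Req]; ring
      have h2 := (mul_eq_zero.1 h1).resolve_left hs0.ne'
      have h00 : 0 < (e - 1) * (X + 1) := mul_pos he1 (by linarith)
      rcases (show c = 1 ∨ 2 ≤ c by omega) with hc1 | hc2
      · subst hc1
        have h3 : (e - 1) * (X + 1) + 1 * (T + (X + 1)) - z * 1 * (1 - 1) * (T + X - 1)
          = (e - 1) * (X + 1) + (T + (X + 1)) := by ring
        linarith
      · have h7 : z * (T + X - 1) * 1 ≤ z * (T + X - 1) * (c - 1) :=
          mul_le_mul_of_nonneg_left (by linarith) (mul_nonneg (by linarith) hTX.le)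
        have h8 : 1 * ((e - 1) * (X + 1)) ≤ c * ((e - 1) * (X + 1)) :=
          mul_le_mul_of_nonneg_right (by linarith) h00.le
        have h9 : c * (z * (T + X - 1)) ≤ c * (z * (T + X - 1) * (c - 1)) :=
          mul_le_mul_of_nonneg_left (by linarith) hc.le
        have h10 : z * c * (c - 1) * (T + X - 1) = c * (z * (T + X - 1) * (c - 1)) := by ring
        have h11 : c * (z * (T + X - 1)) ≤ c * ((e - 1) * (X + 1) + (T + (X + 1))) := by
          rw [mul_add c ((e - 1) * (X + 1))]
          linarith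
        have h6 : z * (T + X - 1) ≤ (e - 1) * (X + 1) + (T + (X + 1)) :=
          le_of_mul_le_mul_left h11 hc
        have h12 : e * (X + 1) ≤ e * (z - 4) := mul_le_mul_of_nonneg_left (by linarith) (by linarith)
        have h13 : (5 : ℤ) * T ≤ z * T := mul_le_mul_of_nonneg_right (by linarith) hT0.le
        have h14 : e * (z - 4) = T - 4 * e := by rw [hT]; ring
        have h15 : (e - 1) * (X + 1) = e * (X + 1) - (X + 1) := by ring
        have h16 : z * (T + X - 1) = z * T + z * X - z := by ring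
        have h17 : 0 ≤ z * X := mul_nonneg (by linarith) hX
        linarith

/-- The arithmetic core: there is no integral solution when `z ≥ x² + 4`, and `l ≥ 2 x + z` when
`z ≥ x + 4`. -/
theorem core (x z e l g : ℤ) (hx : 1 ≤ x) (hz : x + 4 ≤ z) (he : 2 ≤ e) (hl : 0 < l)
    (hg : 0 < g)
    (E6 : e * (e - 1) * z * ((z + 2 * x - 1) * l - x * (x + z))
      = g * ((z + 2 * x - 1) * ((z + 2 * x - 1) * (x + e * z) - x * (x + z))
        - 2 * x * (x + z) * (x + e * z - 1)))
    (R : (x + e * z - 1) * l * (2 * (x + e * z - 1) * g - e * (e - 1) * z)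
      = (z + 2 * x - 1) * (x + e * z - 2) * g * (l + z * g)) :
    z + 2 * x ≤ l ∧ e ≤ g ∧ z ≤ x ^ 2 + 3 := by
  obtain ⟨X, rfl⟩ : ∃ X, x = X + 1 := ⟨x - 1, by ring⟩
  have hX : 0 ≤ X := by linarith
  obtain ⟨T, hT⟩ : ∃ T, T = e * z := ⟨_, rfl⟩
  obtain ⟨s, hs⟩ : ∃ s, s = z + 2 * (X + 1) - 1 := ⟨_, rfl⟩
  obtain ⟨i, rfl⟩ : ∃ i, l = s + i := ⟨l - s, by ring⟩
  obtain ⟨c, rfl⟩ : ∃ c, g = e - 1 + c := ⟨g - (e - 1), by ring⟩
  obtain ⟨M, hM⟩ : ∃ M, M = T * (z * z + 2 * X * z + 2 * X * X - 1) - (X + 1) * X * (z + 1) :=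
    ⟨_, rfl⟩
  obtain ⟨K, hK⟩ : ∃ K, K = T * ((X + 1) * ((X + 1) + z) + i * s) + (X + 1) * X * (z + 1) :=
    ⟨_, rfl⟩
  obtain ⟨Q1, hQ1⟩ : ∃ Q1, Q1 = (T + X) * (T + 2 * X) - s * (T + X - 1) := ⟨_, rfl⟩
  obtain ⟨Q2, hQ2⟩ : ∃ Q2, Q2 = 2 * (T + X) * (T + X) - s * (T + X - 1) := ⟨_, rfl⟩
  have he1 : 0 < e - 1 := by linarith
  have hT2 : 2 * z ≤ T := by
    rw [hT]; exact mul_le_mul_of_nonneg_right he (by linarith)
  have hs0 : 0 < s := by rw [hs]; linarith
  have hTe : (e - 1) * z = T - z := by rw [hT]; ring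
  have E6' : c * M = (e - 1) * K := by
    rw [hM, hK, hs, hT]
    rw [hs] at E6
    linear_combination (-1 : ℤ) * E6
  have Req : s * ((e - 1) * (X + 1) + c * (T + (X + 1)) - z * c * (c - 1) * (T + X - 1))
      = - i * ((e - 1) * Q1 + c * Q2) := by
    rw [hQ1, hQ2, hs, hT]
    rw [hs] at R
    linear_combination R
  have Bpos : 0 < (e - 1) * Q1 + c * Q2 := by
    have h1 : (s + i) * ((e - 1) * Q1 + c * Q2) = s * (T + X - 1) * z * (e - 1 + c) ^ 2 := by
      rw [hQ1, hQ2, hs, hT]
      rw [hs] at R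
      linear_combination R
    have h2 : 0 < s * (T + X - 1) * z * (e - 1 + c) ^ 2 := by
      have h3 : 0 < T + X - 1 := by linarith
      have h4 : 0 < z := by linarith
      positivity
    rw [← h1] at h2
    exact (pos_iff_pos_of_mul_pos h2).1 hl
  clear E6 R
  obtain ⟨hi, hc⟩ := cases X z e i c T s M K Q1 Q2 hX (by linarith) he hT hs hM hK hQ1 hQ2 E6' Req
    Bpos
  refine ⟨by rw [hs]; linarith, by linarith, ?_⟩
  by_contra hcon
  push Not at hcon
  have hF := keyPos X (z - ((X + 1) ^ 2 + 4)) (T - 2 * z) (i - 1) hX (by linarith) (by linarith)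
    (by linarith) (X + 1) z T i s M K rfl (by ring) (by ring) (by ring) hs hM hK
  rw [← hQ1, ← hQ2, ← hTe] at hF
  have hzero : (e - 1) * (i * (M * M * Q1 + K * M * Q2)
      + s * (X + 1) * M * M + s * K * M * ((T + (X + 1)) + z * (T + X - 1))
      - s * (T + X - 1) * ((e - 1) * z) * K * K) = 0 := by
    clear hF hM hK hQ1 hQ2 hs hT Bpos
    linear_combination (M * M) * Req
          + (s * M * (T + (X + 1)) + s * z * M * (T + X - 1) - s * z * (T + X - 1) * (c * M + (e - 1) * K)
            + i * M * Q2) * (-1 : ℤ) * E6'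
  have := (mul_eq_zero.1 hzero).resolve_left he1.ne'
  linarith

end Pool.Agent.TH500.QS
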