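import Mathlib

set_option autoImplicit false

namespace Pool.Agent.TH500.QS

/-- For fixed `x` and `y` the block size is bounded. -/
theorem kbound (x y : ℤ) (hx : 2 ≤ x) (hxy : x < y) : ∃ K : ℤ, ∀ k l G : ℤ, y < k → 1 ≤ l → 0 < G →
    (k - x) * (k - y) * ((x + y - 1) * l - x * y)
      = G * (k * ((x + y - 1) ^ 2 - 2 * (x * y)) - x * y * (x + y - 1 - 2)) →
    l * (k * ((x + y - 1) ^ 2 - 2 * (x * y)) - x * y * (x + y - 1 - 2)) *
        (((x + y - 1) * l - x * y) * (2 * (k - 1) * (k - 1) - (x + y - 1) * (k - 2))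
          - (k - 1) * (k * ((x + y - 1) ^ 2 - 2 * (x * y)) - x * y * (x + y - 1 - 2)))
      - (x + y - 1) * (k - 2) * ((k - x) * (k - y)) * ((x + y - 1) * l - x * y) ^ 2 = 0 →
    k ≤ K := by
  obtain ⟨s, hs⟩ : ∃ s, s = x + y - 1 := ⟨_, rfl⟩
  obtain ⟨p, hp⟩ : ∃ p, p = x * y := ⟨_, rfl⟩
  obtain ⟨A, hA⟩ : ∃ A, A = s ^ 2 - 2 * p := ⟨_, rfl⟩
  obtain ⟨δ, hδ⟩ : ∃ δ, δ = s ^ 2 - 4 * p := ⟨_, rfl⟩
  rw [← hs, ← hp, ← hA]
  have hs4 : 4 ≤ s := by rw [hs]; linarith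
  have hp0 : 0 < p := by rw [hp]; exact mul_pos (by linarith) (by linarith)
  have hA1 : 1 ≤ A := by
    have : A = (x - 1) ^ 2 + (y - 1) ^ 2 - 1 := by rw [hA, hs, hp]; ring
    rw [this]
    nlinarith
  -- coefficients
  obtain ⟨a2, ha2⟩ : ∃ a, a = 12 * p - s ^ 2 := ⟨_, rfl⟩
  obtain ⟨a1, ha1⟩ : ∃ a, a = s ^ 3 + s ^ 2 * p - 10 * s * p - 4 * p ^ 2 := ⟨_, rfl⟩
  obtain ⟨a0, ha0⟩ : ∃ a, a = s * p ^ 2 + 3 * p ^ 2 := ⟨_, rfl⟩
  obtain ⟨b2, hb2⟩ : ∃ a, a = -(2 * s * p + 12 * p) := ⟨_, rfl⟩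
  obtain ⟨b1, hb1⟩ : ∃ a, a = 6 * s * p + 10 * p ^ 2 := ⟨_, rfl⟩
  obtain ⟨b0, hb0⟩ : ∃ a, a = -(2 * s * p ^ 2 + p ^ 3 + 2 * p ^ 2) := ⟨_, rfl⟩
  obtain ⟨d2, hd2⟩ : ∃ a, a = 2 * s * p + 4 * p := ⟨_, rfl⟩
  obtain ⟨d1, hd1⟩ : ∃ a, a = -(s * p ^ 2 + 6 * p ^ 2) := ⟨_, rfl⟩
  obtain ⟨d0, hd0⟩ : ∃ a, a = 2 * p ^ 3 := ⟨_, rfl⟩
  obtain ⟨C, hC⟩ : ∃ C, C = |a2| + |a1| + |a0| + |b2| + |b1| + |b0| + |d2| + |d1| + |d0| :=
    ⟨_, rfl⟩
  obtain ⟨D, hD⟩ : ∃ D, D = x * (x - 1) * (y - x + 1) * (y * (y - 1) * (y - x - 1)) := ⟨_, rfl⟩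
  obtain ⟨c, hc⟩ : ∃ c, c = D * s + (D + s) * p := ⟨_, rfl⟩
  have hC0 : 0 ≤ C := by rw [hC]; positivity
  have hD0 : 0 ≤ D := by
    rw [hD]
    have h1 : 0 ≤ x * (x - 1) * (y - x + 1) := by
      apply mul_nonneg (mul_nonneg _ _) _ <;> linarith
    have h2 : 0 ≤ y * (y - 1) * (y - x - 1) := by
      apply mul_nonneg (mul_nonneg _ _) _ <;> linarith
    exact mul_nonneg h1 h2
  have hc0 : 0 ≤ c := by rw [hc]; positivity
  refine ⟨4 * C * (s ^ 2 + 1) + c * (2 * s + 2 * p) + 4 * C + C + c * (p ^ 2 * c + C) + p * s, ?_⟩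
  intro k l G hk hl hG hGM hP
  have t1 : 0 ≤ 4 * C * (s ^ 2 + 1) := by positivity
  have t2 : 0 ≤ c * (2 * s + 2 * p) := by
    apply mul_nonneg hc0; linarith
  have t3 : 0 ≤ c * (p ^ 2 * c + C) := by positivity
  have t4 : 0 ≤ p * s := by apply mul_nonneg <;> linarith
  have hk0 : 0 < k := by linarith
  have hl0 : 0 < l := by linarith
  -- the polynomial relation, divided by s
  have hP' : k ^ 3 * (δ * l ^ 2 - s * δ * l - p ^ 2) + k ^ 2 * (a2 * l ^ 2 + a1 * l + a0)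
      + k * (b2 * l ^ 2 + b1 * l + b0) + (d2 * l ^ 2 + d1 * l + d0) = 0 := by
    have hs0 : s ≠ 0 := by linarith
    apply mul_left_cancel₀ hs0
    rw [mul_zero, ← hP, hA, hδ, ha2, ha1, ha0, hb2, hb1, hb0, hd2, hd1, hd0]
    have hW : (k - x) * (k - y) = k ^ 2 - (s + 1) * k + p := by rw [hs, hp]; ring
    rw [hW]
    ring
  clear hP
  -- the divisibility bound
  have hdiv : 0 ≤ δ → k ≤ c * l ∨ k ≤ p * s := by
    intro hδ0
    have hD1 : 1 ≤ D := by
      have h1 : δ = (y - x - 1) ^ 2 - 4 * x := by rw [hδ, hs, hp]; ring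
      have h2 : 1 ≤ y - x - 1 := by
        by_contra hcon
        push Not at hcon
        have h3 : y - x - 1 = 0 := by linarith
        rw [h3] at h1
        linarith
      have h3 : 0 < D := by
        rw [hD]
        apply mul_pos
        · apply mul_pos (mul_pos _ _) _ <;> linarith
        · apply mul_pos (mul_pos _ _) _ <;> linarith
      linarith
    obtain ⟨M, hM⟩ : ∃ M, M = k * A - p * (s - 2) := ⟨_, rfl⟩
    obtain ⟨U, hU⟩ : ∃ U, U = s * l - p := ⟨_, rfl⟩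
    clear hP' ha2 ha1 ha0 hb2 hb1 hb0 hd2 hd1 hd0 hC
    rw [← hM, ← hU] at hGM
    have hkA : k * 1 ≤ k * A := mul_le_mul_of_nonneg_left hA1 hk0.le
    by_cases hU0 : U = 0
    · right
      rw [hU0, mul_zero] at hGM
      have hM0 : M = 0 := (mul_eq_zero.1 hGM.symm).resolve_left hG.ne'
      rw [hM] at hM0
      linarith
    · left
      have hdv : M ∣ D * U := by
        refine ⟨(M + x * (x - 1) * (y - x + 1) - y * (y - 1) * (y - x - 1)) * U - A ^ 2 * G, ?_⟩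
        have e1 : k * A - x * A = M + x * (x - 1) * (y - x + 1) := by
          rw [hM, hA, hs, hp]; ring
        have e2 : k * A - y * A = M - y * (y - 1) * (y - x - 1) := by
          rw [hM, hA, hs, hp]; ring
        have e3 : (M + x * (x - 1) * (y - x + 1)) * (M - y * (y - 1) * (y - x - 1)) * U
            = A ^ 2 * (G * M) := by
          rw [← e1, ← e2, ← hGM]; ring
        rw [hD]
        linear_combination (-1 : ℤ) * e3
      have hDU : D * U ≠ 0 := mul_ne_zero (by linarith) hU0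
      have h4 : M ≤ |D * U| := by
        have := Int.le_of_dvd (abs_pos.2 hDU) ((dvd_abs M (D * U)).2 hdv)
        exact this
      rw [abs_mul, abs_of_nonneg hD0] at h4
      have h5 : |U| ≤ s * l + p := by
        rw [hU, abs_le]
        have : 0 ≤ s * l := by positivity
        constructor <;> linarith
      have h6 : D * |U| ≤ D * (s * l + p) := mul_le_mul_of_nonneg_left h5 hD0
      have h7 : (D + s) * p * 1 ≤ (D + s) * p * l :=
        mul_le_mul_of_nonneg_left hl (mul_nonneg (by linarith) hp0.le)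
      have h8 : c * l = D * (s * l) + (D + s) * p * l := by rw [hc]; ring
      have h9 : M = k * A - p * s + 2 * p := by rw [hM]; ring
      have h10 : (D + s) * p * 1 = D * p + p * s := by ring
      have h11 : D * (s * l + p) = D * (s * l) + D * p := by ring
      linarith
  clear hGM
  -- monomial bounds
  have hkl : 0 < k ^ 2 * l ^ 2 := by positivity
  have hk1 : 1 ≤ k := by linarith
  have hkk : k ≤ k ^ 2 := by nlinarith
  have hk2 : 1 ≤ k ^ 2 := by linarith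
  have hll : l ≤ l ^ 2 := by nlinarith
  have hl2 : 1 ≤ l ^ 2 := by linarith
  have key : ∀ a m N : ℤ, 0 ≤ m → m ≤ N → -(|a| * N) ≤ a * m ∧ a * m ≤ |a| * N := by
    intro a m N hm hmN
    have h1 : |a| * m ≤ |a| * N := mul_le_mul_of_nonneg_left hmN (abs_nonneg a)
    have h2 : |a * m| = |a| * m := by rw [abs_mul, abs_of_nonneg hm]
    have h3 := abs_le.1 h2.le
    exact ⟨by linarith, by linarith⟩
  have hR : k ^ 3 * |δ * l ^ 2 - s * δ * l - p ^ 2| ≤ C * (k ^ 2 * l ^ 2) := by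
    have m1 := key a2 (k ^ 2 * l ^ 2) (k ^ 2 * l ^ 2) hkl.le le_rfl
    have m2 := key a1 (k ^ 2 * l) (k ^ 2 * l ^ 2) (by positivity)
      (mul_le_mul_of_nonneg_left hll (by positivity))
    have m3 := key a0 (k ^ 2) (k ^ 2 * l ^ 2) (by positivity)
      (le_mul_of_one_le_right (by positivity) hl2)
    have m4 := key b2 (k * l ^ 2) (k ^ 2 * l ^ 2) (by positivity)
      (mul_le_mul_of_nonneg_right hkk (by positivity))
    have m5 := key b1 (k * l) (k ^ 2 * l ^ 2) (by positivity)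
      (mul_le_mul hkk hll hl0.le (by positivity))
    have m6 := key b0 k (k ^ 2 * l ^ 2) hk0.le
      (hkk.trans (le_mul_of_one_le_right (by positivity) hl2))
    have m7 := key d2 (l ^ 2) (k ^ 2 * l ^ 2) (by positivity)
      (le_mul_of_one_le_left (by positivity) hk2)
    have m8 := key d1 l (k ^ 2 * l ^ 2) hl0.le
      (hll.trans (le_mul_of_one_le_left (by positivity) hk2))
    have m9 := key d0 1 (k ^ 2 * l ^ 2) (by norm_num) (by linarith)
    have hCe : C * (k ^ 2 * l ^ 2) = |a2| * (k ^ 2 * l ^ 2) + |a1| * (k ^ 2 * l ^ 2)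
        + |a0| * (k ^ 2 * l ^ 2) + |b2| * (k ^ 2 * l ^ 2) + |b1| * (k ^ 2 * l ^ 2)
        + |b0| * (k ^ 2 * l ^ 2) + |d2| * (k ^ 2 * l ^ 2) + |d1| * (k ^ 2 * l ^ 2)
        + |d0| * (k ^ 2 * l ^ 2) := by rw [hC]; ring
    have h1 : k ^ 3 * |δ * l ^ 2 - s * δ * l - p ^ 2|
        = |k ^ 3 * (δ * l ^ 2 - s * δ * l - p ^ 2)| := by
      rw [abs_mul, abs_of_nonneg (by positivity : (0 : ℤ) ≤ k ^ 3)]
    rw [h1, abs_le]
    have h2 : k ^ 3 * (δ * l ^ 2 - s * δ * l - p ^ 2) = -(a2 * (k ^ 2 * l ^ 2) + a1 * (k ^ 2 * l)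
        + a0 * k ^ 2 + b2 * (k * l ^ 2) + b1 * (k * l) + b0 * k + d2 * l ^ 2 + d1 * l
        + d0 * 1) := by linear_combination hP'
    rw [h2, hCe]
    constructor
    · linarith [m1.2, m2.2, m3.2, m4.2, m5.2, m6.2, m7.2, m8.2, m9.2]
    · linarith [m1.1, m2.1, m3.1, m4.1, m5.1, m6.1, m7.1, m8.1, m9.1]
  have hI : k * |δ * l ^ 2 - s * δ * l - p ^ 2| ≤ C * l ^ 2 := by
    have h1 : k ^ 2 * (k * |δ * l ^ 2 - s * δ * l - p ^ 2|) ≤ k ^ 2 * (C * l ^ 2) := by
      have e1 : k ^ 2 * (k * |δ * l ^ 2 - s * δ * l - p ^ 2|)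
        = k ^ 3 * |δ * l ^ 2 - s * δ * l - p ^ 2| := by ring
      have e2 : k ^ 2 * (C * l ^ 2) = C * (k ^ 2 * l ^ 2) := by ring
      rw [e1, e2]; exact hR
    exact le_of_mul_le_mul_left h1 (by positivity)
  rcases lt_trichotomy δ 0 with hd | hd | hd
  · -- δ < 0
    have e1 : 4 * (δ * l ^ 2 - s * δ * l - p ^ 2) = δ * (2 * l - s) ^ 2 - A ^ 2 := by
      rw [hA, hδ]; ring
    have h1 : (2 * l - s) ^ 2 + 1 ≤ 4 * |δ * l ^ 2 - s * δ * l - p ^ 2| := by
      have h2 := neg_abs_le (δ * l ^ 2 - s * δ * l - p ^ 2)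
      have h3 : δ * (2 * l - s) ^ 2 ≤ (-1) * (2 * l - s) ^ 2 :=
        mul_le_mul_of_nonneg_right (by linarith) (sq_nonneg _)
      have h4 : 1 ≤ A ^ 2 := by nlinarith
      linarith
    have h5 : l ^ 2 ≤ (s ^ 2 + 1) * ((2 * l - s) ^ 2 + 1) := by
      nlinarith [sq_nonneg (2 * l - s), sq_nonneg (2 * l - 2 * s), sq_nonneg s,
        mul_nonneg (sq_nonneg s) (sq_nonneg (2 * l - s))]
    have hq : 0 < (2 * l - s) ^ 2 + 1 := by positivity
    have h6 : k * ((2 * l - s) ^ 2 + 1) ≤ (4 * C * (s ^ 2 + 1)) * ((2 * l - s) ^ 2 + 1) := by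
      calc k * ((2 * l - s) ^ 2 + 1) ≤ k * (4 * |δ * l ^ 2 - s * δ * l - p ^ 2|) :=
            mul_le_mul_of_nonneg_left h1 hk0.le
        _ = 4 * (k * |δ * l ^ 2 - s * δ * l - p ^ 2|) := by ring
        _ ≤ 4 * (C * l ^ 2) := by linarith
        _ ≤ 4 * (C * ((s ^ 2 + 1) * ((2 * l - s) ^ 2 + 1))) := by
            have := mul_le_mul_of_nonneg_left h5 hC0
            linarith
        _ = (4 * C * (s ^ 2 + 1)) * ((2 * l - s) ^ 2 + 1) := by ring
    have h7 := le_of_mul_le_mul_right h6 hq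
    linarith
  · -- δ = 0
    rcases hdiv (by rw [hd]) with hkc | hkc
    swap
    · linarith
    by_cases hkC : k ≤ C
    · linarith
    push Not at hkC
    have hs2 : s ^ 2 = 4 * p := by linarith [hδ ▸ hd]
    have ha2' : a2 = 8 * p := by rw [ha2, hs2]; ring
    have m2 := key a1 (k ^ 2 * l) (k ^ 2 * l) (by positivity) le_rfl
    have m3 := key a0 (k ^ 2) (k ^ 2 * l) (by positivity)
      (le_mul_of_one_le_right (by positivity) hl)
    have m4 := key b2 (k * l ^ 2) (k * l ^ 2) (by positivity) le_rfl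
    have m5 := key b1 (k * l) (k * l ^ 2) (by positivity)
      (mul_le_mul_of_nonneg_left hll hk0.le)
    have m6 := key b0 k (k * l ^ 2) hk0.le (le_mul_of_one_le_right hk0.le hl2)
    have m7 := key d2 (l ^ 2) (k * l ^ 2) (by positivity)
      (le_mul_of_one_le_left (by positivity) hk1)
    have m8 := key d1 l (k * l ^ 2) hl0.le
      (hll.trans (le_mul_of_one_le_left (by positivity) hk1))
    have m9 := key d0 1 (k * l ^ 2) (by norm_num)
      (hl2.trans (le_mul_of_one_le_left (by positivity) hk1))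
    have hC1 : (|a1| + |a0|) * (k ^ 2 * l) ≤ C * (k ^ 2 * l) := by
      apply mul_le_mul_of_nonneg_right _ (by positivity)
      rw [hC]
      linarith [abs_nonneg a2, abs_nonneg b2, abs_nonneg b1, abs_nonneg b0, abs_nonneg d2,
        abs_nonneg d1, abs_nonneg d0]
    have hC2 : (|b2| + |b1| + |b0| + |d2| + |d1| + |d0|) * (k * l ^ 2) ≤ C * (k * l ^ 2) := by
      apply mul_le_mul_of_nonneg_right _ (by positivity)
      rw [hC]
      linarith [abs_nonneg a2, abs_nonneg a1, abs_nonneg a0]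
    have h2 : k ^ 3 * p ^ 2 = 8 * p * (k ^ 2 * l ^ 2) + a1 * (k ^ 2 * l)
        + a0 * k ^ 2 + b2 * (k * l ^ 2) + b1 * (k * l) + b0 * k + d2 * l ^ 2 + d1 * l
        + d0 * 1 := by
      have h3 := hP'
      rw [hd, ha2'] at h3
      linear_combination (-1 : ℤ) * h3
    have h4 : k ^ 3 * p ^ 2 ≤ p ^ 2 * c * (k ^ 2 * l) := by
      have h5 : k ^ 2 * p ^ 2 * k ≤ k ^ 2 * p ^ 2 * (c * l) :=
        mul_le_mul_of_nonneg_left hkc (by positivity)
      have e1 : k ^ 3 * p ^ 2 = k ^ 2 * p ^ 2 * k := by ring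
      have e2 : p ^ 2 * c * (k ^ 2 * l) = k ^ 2 * p ^ 2 * (c * l) := by ring
      rw [e1, e2]; exact h5
    have h5 : 8 * p * (k ^ 2 * l ^ 2) ≤ (p ^ 2 * c + C) * (k ^ 2 * l) + C * (k * l ^ 2) := by
      have e1 : (|a1| + |a0|) * (k ^ 2 * l) = |a1| * (k ^ 2 * l) + |a0| * (k ^ 2 * l) := by ring
      have e2 : (|b2| + |b1| + |b0| + |d2| + |d1| + |d0|) * (k * l ^ 2) = |b2| * (k * l ^ 2)
        + |b1| * (k * l ^ 2) + |b0| * (k * l ^ 2) + |d2| * (k * l ^ 2) + |d1| * (k * l ^ 2)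
        + |d0| * (k * l ^ 2) := by ring
      have e3 : (p ^ 2 * c + C) * (k ^ 2 * l) = p ^ 2 * c * (k ^ 2 * l) + C * (k ^ 2 * l) := by ring
      linarith [m2.1, m3.1, m4.1, m5.1, m6.1, m7.1, m8.1, m9.1]
    have h6 : 8 * p * (k * l) ≤ (p ^ 2 * c + C) * k + C * l := by
      have h7 : (k * l) * (8 * p * (k * l)) ≤ (k * l) * ((p ^ 2 * c + C) * k + C * l) := by
        have e1 : (k * l) * (8 * p * (k * l)) = 8 * p * (k ^ 2 * l ^ 2) := by ring
        have e2 : (k * l) * ((p ^ 2 * c + C) * k + C * l)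
          = (p ^ 2 * c + C) * (k ^ 2 * l) + C * (k * l ^ 2) := by ring
        rw [e1, e2]; exact h5
      exact le_of_mul_le_mul_left h7 (by positivity)
    have h8 : C * l ≤ k * l := mul_le_mul_of_nonneg_right hkC.le hl0.le
    have h9 : 8 * (k * l) ≤ 8 * p * (k * l) := by
      have : 0 < k * l := by positivity
      have h10 : 1 * (k * l) ≤ p * (k * l) := mul_le_mul_of_nonneg_right (by linarith) this.le
      linarith
    have h10 : k * l ≤ k * (p ^ 2 * c + C) := by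
      have : 0 < k * l := by positivity
      have e1 : (p ^ 2 * c + C) * k = k * (p ^ 2 * c + C) := by ring
      linarith
    have h11 : l ≤ p ^ 2 * c + C := le_of_mul_le_mul_left h10 hk0
    have h12 : c * l ≤ c * (p ^ 2 * c + C) := mul_le_mul_of_nonneg_left h11 hc0
    linarith
  · -- δ > 0
    rcases hdiv hd.le with hkc | hkc
    swap
    · linarith
    by_cases hl3 : l ≤ 2 * s + 2 * p
    · have := mul_le_mul_of_nonneg_left hl3 hc0
      linarith
    push Not at hl3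
    have h1 : (2 * s + 2 * p) * l ≤ l * l := mul_le_mul_of_nonneg_right hl3.le hl0.le
    have h2 : 0 ≤ l * l - s * l := by
      have : 0 ≤ s * l := by positivity
      have : 0 ≤ p * l := by positivity
      linarith
    have h3 : 1 * (l * l - s * l) ≤ δ * (l * l - s * l) := mul_le_mul_of_nonneg_right (by linarith) h2
    have h4 : p * p ≤ p * l := mul_le_mul_of_nonneg_left (by linarith) hp0.le
    have h5 : l ^ 2 ≤ 4 * |δ * l ^ 2 - s * δ * l - p ^ 2| := by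
      have h6 := le_abs_self (δ * l ^ 2 - s * δ * l - p ^ 2)
      have e1 : δ * l ^ 2 - s * δ * l - p ^ 2 = δ * (l * l - s * l) - p * p := by ring
      have e2 : l ^ 2 = l * l := sq l
      have : 0 ≤ l * l := by positivity
      linarith
    have h6 : k * l ^ 2 ≤ (4 * C) * l ^ 2 := by
      have h7 := mul_le_mul_of_nonneg_left h5 hk0.le
      have e1 : k * (4 * |δ * l ^ 2 - s * δ * l - p ^ 2|)
        = 4 * (k * |δ * l ^ 2 - s * δ * l - p ^ 2|) := by ring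
      linarith
    have h7 := le_of_mul_le_mul_right h6 (by positivity)
    linarith

end Pool.Agent.TH500.QS
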