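import Pool.Agent.TH500.QS.Main
import Pool.Agent.TH500.QS.Fin1

set_option autoImplicit false

namespace Pool.Agent.TH500.QS

open Finset
open Pool.Agent.TH413.QS

universe u

/-- The relations used for the bound of the block size. -/
lemma relations2 (k x y v l l2 r b a c : ℤ) (hk3 : 3 ≤ k) (hv : k < v) (hl : 1 ≤ l)
    (hxk : x < k) (hyk : y < k) (hs : 0 < x + y - 1)
    (e0 : 1 + a + c = b) (e1 : k + a * x + c * y = k * r)
    (e2 : k * (k - 1) + a * (x * (x - 1)) + c * (y * (y - 1)) = k * (k - 1) * l2)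
    (e3 : k * (k - 1) * (k - 2) + a * (x * (x - 1) * (x - 2)) + c * (y * (y - 1) * (y - 2))
      = k * (k - 1) * (k - 2) * l)
    (D2 : l2 * (k - 2) = l * (v - 2)) (D1 : r * (k - 1) = l2 * (v - 1)) (D0 : b * k = r * v) :
    ((k - x) * (k - y) * ((x + y - 1) * l - x * y)
      = (l2 - l) * (k * ((x + y - 1) ^ 2 - 2 * (x * y)) - x * y * (x + y - 1 - 2))) ∧
    (l * (k * ((x + y - 1) ^ 2 - 2 * (x * y)) - x * y * (x + y - 1 - 2)) *
        (((x + y - 1) * l - x * y) * (2 * (k - 1) * (k - 1) - (x + y - 1) * (k - 2))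
          - (k - 1) * (k * ((x + y - 1) ^ 2 - 2 * (x * y)) - x * y * (x + y - 1 - 2)))
      - (x + y - 1) * (k - 2) * ((k - x) * (k - y)) * ((x + y - 1) * l - x * y) ^ 2 = 0) ∧
    v - 2 ≤ 2 * (k - 1) ^ 2 := by
  have hk0 : k ≠ 0 := by omega
  have hvk : v - k ≠ 0 := by omega
  have E1 : k * (k - 1) * (l2 - 1) - (x + y - 1) * k * (r - 1) + x * y * (b - 1) = 0 := by
    linear_combination (-1 : ℤ) * e2 + (x + y - 1) * e1 - x * y * e0
  have E2k : k * (k - 1) * (k - 2) * (l - 1) + (3 - x - y) * (k * (k - 1) * (l2 - 1))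
      + (x - 1) * (y - 1) * (k * (r - 1)) = 0 := by
    linear_combination (-1 : ℤ) * e3 - (3 - x - y) * e2 - (x - 1) * (y - 1) * e1
  have E2 : (k - 1) * (k - 2) * (l - 1) + (3 - x - y) * ((k - 1) * (l2 - 1))
      + (x - 1) * (y - 1) * (r - 1) = 0 := by
    apply mul_left_cancel₀ hk0
    linear_combination E2k
  have E3 : k * (k - 1) * (l2 - l - 1) - (x + y - 1) * k * (r - l2 - 1) + x * y * (b - r - 1)
      = 0 := by
    apply mul_left_cancel₀ hvk
    linear_combination (v - 2 * k) * E1 + E2k + k * (k - 1) * D2 - (x + y - 1) * k * D1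
      + x * y * D0
  have E4' : (k - x) * (k - y) * l
      = (l2 - l) * ((x + y - 1) * k - x * y) - (r - l2) * (x * y) := by
    linear_combination E1 - E3
  have E5 : (k - x) * (k - y) = 2 * (k - 1) * (l2 - l) - (x + y - 1) * (r - l2) := by
    linear_combination E4' - E2
  have R0 : (k - 1) * (r - l2) * l = (k - 2) * (l2 - l) * l2 := by
    linear_combination l * D1 - l2 * D2
  have R1 : (k - 1) * (r - l2) = (l2 - l) * (v - 2) := by
    have hl0 : l ≠ 0 := by omega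
    apply mul_left_cancel₀ hl0
    linear_combination R0 + (l2 - l) * D2
  clear E1 E2k E2 E3 e0 e1 e2 e3
  obtain ⟨G, hG⟩ : ∃ G, G = l2 - l := ⟨_, rfl⟩
  obtain ⟨H, hH⟩ : ∃ H, H = r - l2 := ⟨_, rfl⟩
  obtain ⟨W, hW⟩ : ∃ W, W = (k - x) * (k - y) := ⟨_, rfl⟩
  obtain ⟨s, hs'⟩ : ∃ s, s = x + y - 1 := ⟨_, rfl⟩
  obtain ⟨p, hp⟩ : ∃ p, p = x * y := ⟨_, rfl⟩
  have hl2 : l2 = l + G := by rw [hG]; ring
  rw [← hG, ← hH, ← hW, ← hs', ← hp] at E4'
  rw [← hG, ← hH, ← hW, ← hs'] at E5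
  rw [← hG, ← hH, hl2] at R0
  rw [← hG, ← hH] at R1
  rw [← hG, ← hW, ← hs', ← hp]
  rw [← hs'] at hs
  have hWpos : 0 < W := by rw [hW]; exact mul_pos (by linarith) (by linarith)
  have hb : W * (s * l - p) = G * (k * (s ^ 2 - 2 * p) - p * (s - 2)) := by
    linear_combination s * E4' - p * E5
  refine ⟨hb, ?_, ?_⟩
  · obtain ⟨M, hM⟩ : ∃ M, M = k * (s ^ 2 - 2 * p) - p * (s - 2) := ⟨_, rfl⟩
    obtain ⟨U, hU⟩ : ∃ U, U = s * l - p := ⟨_, rfl⟩
    rw [← hM, ← hU] at hb ⊢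
    have ha : l * ((k - 1) * (2 * (k - 1) * G - W) - s * (k - 2) * G) = s * (k - 2) * G ^ 2 := by
      linear_combination s * R0 - (k - 1) * l * E5
    have hW0 : W ≠ 0 := hWpos.ne'
    apply mul_left_cancel₀ hW0
    linear_combination (M ^ 2) * ha
      + (l * M * (2 * (k - 1) * (k - 1) - s * (k - 2)) - s * (k - 2) * (W * U + G * M)) * hb
  · have hGpos : 0 < G := by
      have h1 : l * (k - 2) < l2 * (k - 2) := by
        rw [D2]
        exact mul_lt_mul_of_pos_left (by linarith) (by linarith)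
      have := lt_of_mul_lt_mul_right h1 (by linarith)
      linarith
    have h1 : s * H ≤ 2 * (k - 1) * G := by linarith
    have h2 : (k - 1) * (s * H) ≤ (k - 1) * (2 * (k - 1) * G) :=
      mul_le_mul_of_nonneg_left h1 (by linarith)
    have h3 : G * (s * (v - 2)) ≤ G * (2 * (k - 1) ^ 2) := by
      have e1 : (k - 1) * (s * H) = G * (s * (v - 2)) := by linear_combination s * R1
      have e2 : (k - 1) * (2 * (k - 1) * G) = G * (2 * (k - 1) ^ 2) := by ring
      rw [← e1, ← e2]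
      exact h2
    have h4 := le_of_mul_le_mul_left h3 hGpos
    have h5 : 1 * (v - 2) ≤ s * (v - 2) := mul_le_mul_of_nonneg_right (by linarith) (by linarith)
    linarith

end Pool.Agent.TH500.QS
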