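import Pool.Agent.TH500.QS.Fin2

set_option autoImplicit false

namespace Pool.Agent.TH500.QS

open Finset
open Pool.Agent.TH413.QS

universe u

set_option linter.unusedSectionVars false

/-- The counting equations of a quasi-symmetric 3-design. -/
theorem design_eqs {P : Type*} [Fintype P] [DecidableEq P] (B : Finset (Finset P))
    (k lam x y : ℕ) (hk : 3 ≤ k) (hkv : k < Fintype.card P)
    (hB : ∀ b ∈ B, b.card = k) (h3 : ∀ T : Finset P, T.card = 3 → deg B T = lam)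
    (hxy : x < y)
    (hint : ∀ b₁ ∈ B, ∀ b₂ ∈ B, b₁ ≠ b₂ → (b₁ ∩ b₂).card = x ∨ (b₁ ∩ b₂).card = y)
    (hy1 : ∃ b₁ ∈ B, ∃ b₂ ∈ B, b₁ ≠ b₂ ∧ (b₁ ∩ b₂).card = y) :
    y < k ∧ 1 ≤ lam ∧ ∃ l2 r b a c : ℤ, 1 + a + c = b ∧ (k : ℤ) + a * x + c * y = k * r ∧
      (k : ℤ) * (k - 1) + a * (x * (x - 1)) + c * (y * (y - 1)) = k * (k - 1) * l2 ∧
      (k : ℤ) * (k - 1) * (k - 2) + a * (x * (x - 1) * (x - 2)) + c * (y * (y - 1) * (y - 2))
        = k * (k - 1) * (k - 2) * lam ∧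
      l2 * ((k : ℤ) - 2) = lam * ((Fintype.card P : ℤ) - 2) ∧
      r * ((k : ℤ) - 1) = l2 * ((Fintype.card P : ℤ) - 1) ∧
      b * (k : ℤ) = r * (Fintype.card P : ℤ) := by
  obtain ⟨l2, r, hl2, hr, d2, d1, d0⟩ := basic B k lam hk hkv hB h3
  obtain ⟨b1, hb1, b1', hb1', hne1, hi1⟩ := hy1
  -- y < k
  have hyk : y < k := by
    have h1 : (b1 ∩ b1').card < b1.card := by
      apply card_lt_card
      refine ⟨inter_subset_left, fun h => hne1 ?_⟩
      have h2 : b1 ⊆ b1' := fun p hp => (mem_inter.1 (h hp)).2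
      exact eq_of_subset_of_card_le h2 (by rw [hB _ hb1, hB _ hb1'])
    rw [hi1, hB _ hb1] at h1
    exact h1
  -- lam ≥ 1
  have hlam : 1 ≤ lam := by
    obtain ⟨T, hT, hTc⟩ := Finset.exists_subset_card_eq (s := b1) (n := 3) (by rw [hB _ hb1]; omega)
    rw [← h3 T hTc]
    unfold deg
    exact card_pos.2 ⟨b1, mem_filter.2 ⟨hb1, hT⟩⟩
  refine ⟨hyk, hlam, l2, r, B.card, cnt B b1 x, cnt B b1 y, ?_⟩
  have hbk := hB b1 hb1
  have s0 := sum_choose B k x y (by omega) b1 hb1 hbk hint 0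
  have s1 := sum_choose B k x y (by omega) b1 hb1 hbk hint 1
  have s2 := sum_choose B k x y (by omega) b1 hb1 hbk hint 2
  have s3 := sum_choose B k x y (by omega) b1 hb1 hbk hint 3
  rw [← sum_deg] at s1 s2 s3
  have t1 : ∑ T ∈ b1.powersetCard 1, deg B T = k * r := by
    rw [Finset.sum_congr rfl (g := fun _ => r) (fun T hT => hr T (mem_powersetCard.1 hT).2),
      Finset.sum_const, card_powersetCard, hbk, smul_eq_mul, Nat.choose_one_right]
  have t2 : ∑ T ∈ b1.powersetCard 2, deg B T = k.choose 2 * l2 := by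
    rw [Finset.sum_congr rfl (g := fun _ => l2) (fun T hT => hl2 T (mem_powersetCard.1 hT).2),
      Finset.sum_const, card_powersetCard, hbk, smul_eq_mul]
  have t3 : ∑ T ∈ b1.powersetCard 3, deg B T = k.choose 3 * lam := by
    rw [Finset.sum_congr rfl (g := fun _ => lam) (fun T hT => h3 T (mem_powersetCard.1 hT).2),
      Finset.sum_const, card_powersetCard, hbk, smul_eq_mul]
  rw [t1] at s1
  rw [t2] at s2
  rw [t3] at s3
  simp only [Nat.choose_zero_right, Finset.sum_const, smul_eq_mul, mul_one] at s0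
  simp only [Nat.choose_one_right] at s1
  have ck2 := choose_two_cast k
  have cx2 := choose_two_cast x
  have cy2 := choose_two_cast y
  have ck3 := choose_three_cast k
  have cx3 := choose_three_cast x
  have cy3 := choose_three_cast y
  have s2' : ((k.choose 2 : ℕ) : ℤ) * l2
      = (k.choose 2 : ℕ) + cnt B b1 x * (x.choose 2 : ℕ) + cnt B b1 y * (y.choose 2 : ℕ) := by
    exact_mod_cast s2
  have s3' : ((k.choose 3 : ℕ) : ℤ) * lam
      = (k.choose 3 : ℕ) + cnt B b1 x * (x.choose 3 : ℕ) + cnt B b1 y * (y.choose 3 : ℕ) := by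
    exact_mod_cast s3
  refine ⟨by rw [s0]; push_cast; ring, ?_, ?_, ?_, ?_, ?_, ?_⟩
  · have : (k : ℤ) * r = k + cnt B b1 x * x + cnt B b1 y * y := by exact_mod_cast s1
    linarith
  · linear_combination (-1 : ℤ) * ck2 - (cnt B b1 x : ℤ) * cx2 - (cnt B b1 y : ℤ) * cy2
      + (l2 : ℤ) * ck2 - 2 * s2'
  · linear_combination (-1 : ℤ) * ck3 - (cnt B b1 x : ℤ) * cx3 - (cnt B b1 y : ℤ) * cy3
      + (lam : ℤ) * ck3 - 6 * s3'
  · have h1 : ((k - 2 : ℕ) : ℤ) = (k : ℤ) - 2 := by omega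
    have h2 : ((Fintype.card P - 2 : ℕ) : ℤ) = (Fintype.card P : ℤ) - 2 := by omega
    rw [← h1, ← h2]
    exact_mod_cast d2
  · have h1 : ((k - 1 : ℕ) : ℤ) = (k : ℤ) - 1 := by omega
    have h2 : ((Fintype.card P - 1 : ℕ) : ℤ) = (Fintype.card P : ℤ) - 1 := by omega
    rw [← h1, ← h2]
    exact_mod_cast d1
  · exact_mod_cast d0

/-- For fixed `2 ≤ x < y` the number of points is bounded. -/
theorem vbound (x y : ℕ) (hx : 2 ≤ x) (hxy : x < y) : ∃ K : ℕ, ∀ (P : Type u) [Fintype P]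
    [DecidableEq P] (B : Finset (Finset P)) (k lam : ℕ), 3 ≤ k → k < Fintype.card P →
    (∀ b ∈ B, b.card = k) → (∀ T : Finset P, T.card = 3 → deg B T = lam) →
    (∀ b₁ ∈ B, ∀ b₂ ∈ B, b₁ ≠ b₂ → (b₁ ∩ b₂).card = x ∨ (b₁ ∩ b₂).card = y) →
    (∃ b₁ ∈ B, ∃ b₂ ∈ B, b₁ ≠ b₂ ∧ (b₁ ∩ b₂).card = y) → Fintype.card P ≤ K := by
  have hx' : (2 : ℤ) ≤ x := by exact_mod_cast hx
  have hxy' : (x : ℤ) < y := by exact_mod_cast hxy
  obtain ⟨K, hK⟩ := kbound x y hx' hxy'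
  refine ⟨(2 * K ^ 2 + 2).toNat, ?_⟩
  intro P _ _ B k lam hk hkv hB h3 hint hy1
  obtain ⟨hyk, hlam, l2, r, b, a, c, e0, e1, e2, e3, D2, D1, D0⟩ :=
    design_eqs B k lam x y hk hkv hB h3 hxy hint hy1
  have hk' : (3 : ℤ) ≤ k := by exact_mod_cast hk
  have hkv' : (k : ℤ) < Fintype.card P := by exact_mod_cast hkv
  have hlam' : (1 : ℤ) ≤ lam := by exact_mod_cast hlam
  have hyk' : (y : ℤ) < k := by exact_mod_cast hyk
  obtain ⟨r1, r2, r3⟩ := relations2 k x y (Fintype.card P) lam l2 r b a c hk' hkv' hlam'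
    (by linarith) hyk' (by linarith) e0 e1 e2 e3 D2 D1 D0
  have hG : 0 < l2 - lam := by
    have h1 : (lam : ℤ) * (k - 2) < l2 * (k - 2) := by
      rw [D2]
      exact mul_lt_mul_of_pos_left (by linarith) (by linarith)
    have := lt_of_mul_lt_mul_right h1 (by linarith)
    linarith
  have hkK := hK k lam (l2 - lam) hyk' hlam' hG r1 r2
  have h1 : ((k : ℤ) - 1) ^ 2 ≤ K ^ 2 := by
    have h2 : (0 : ℤ) ≤ (k : ℤ) - 1 := by linarith
    exact pow_le_pow_left₀ h2 (by linarith) 2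
  have h3 : (Fintype.card P : ℤ) ≤ 2 * K ^ 2 + 2 := by linarith
  omega

/-- **Finiteness.** For every `x ≥ 1` the number of points of a quasi-symmetric 3-design with
smaller intersection number `x` is bounded. -/
theorem finiteness (x : ℕ) (hx : 1 ≤ x) : ∃ K : ℕ, ∀ (P : Type u) [Fintype P]
    [DecidableEq P] (B : Finset (Finset P)) (k lam y : ℕ), 3 ≤ k → k < Fintype.card P →
    (∀ b ∈ B, b.card = k) → (∀ T : Finset P, T.card = 3 → deg B T = lam) → x < y →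
    (∀ b₁ ∈ B, ∀ b₂ ∈ B, b₁ ≠ b₂ → (b₁ ∩ b₂).card = x ∨ (b₁ ∩ b₂).card = y) →
    (∃ b₁ ∈ B, ∃ b₂ ∈ B, b₁ ≠ b₂ ∧ (b₁ ∩ b₂).card = x) →
    (∃ b₁ ∈ B, ∃ b₂ ∈ B, b₁ ≠ b₂ ∧ (b₁ ∩ b₂).card = y) → Fintype.card P ≤ K := by
  classical
  by_cases hx2 : 2 ≤ x
  · have h : ∀ y : ℕ, ∃ K : ℕ, x < y → ∀ (P : Type u) [Fintype P]
        [DecidableEq P] (B : Finset (Finset P)) (k lam : ℕ), 3 ≤ k → k < Fintype.card P →
        (∀ b ∈ B, b.card = k) → (∀ T : Finset P, T.card = 3 → deg B T = lam) →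
        (∀ b₁ ∈ B, ∀ b₂ ∈ B, b₁ ≠ b₂ → (b₁ ∩ b₂).card = x ∨ (b₁ ∩ b₂).card = y) →
        (∃ b₁ ∈ B, ∃ b₂ ∈ B, b₁ ≠ b₂ ∧ (b₁ ∩ b₂).card = y) → Fintype.card P ≤ K := by
      intro y
      by_cases hxy : x < y
      · obtain ⟨K, hK⟩ := vbound.{u} x y hx2 hxy
        exact ⟨K, fun _ => hK⟩
      · exact ⟨0, fun h => absurd h hxy⟩
    choose K hK using h
    refine ⟨∑ y ∈ Finset.range (x ^ 2 + x + 4), K y, ?_⟩
    intro P _ _ B k lam y hk hkv hB h3 hxy hint hx1 hy1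
    have hy := (main B k lam x y hk hkv hB h3 hx hxy hint hx1 hy1).1
    have h1 := hK y hxy P B k lam hk hkv hB h3 hint hy1
    exact h1.trans (Finset.single_le_sum (f := K) (fun _ _ => Nat.zero_le _)
      (Finset.mem_range.2 (by omega)))
  · have hx1' : x = 1 := by omega
    subst hx1'
    refine ⟨23, ?_⟩
    intro P _ _ B k lam y hk hkv hB h3 hxy hint hx1 hy1
    rcases params B k lam y hk hkv hB h3 hxy hint hx1 hy1 with ⟨-, -, ⟨-, h⟩ | ⟨-, h⟩⟩ | ⟨-, -, -, h⟩ <;>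
      omega

end Pool.Agent.TH500.QS
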