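import Pool.Agent.TH500.QS.Params

set_option autoImplicit false

namespace Pool.Agent.TH500.QS

open Finset
open Pool.Agent.TH413.QS

variable {P : Type*} [Fintype P] [DecidableEq P]

set_option linter.unusedSectionVars false

/-- The two basic relations from the counting equations. -/
lemma relations (k x y v l l2 r b a c z g e : ℤ) (hk3 : 3 ≤ k) (hv : k < v) (hl : 1 ≤ l)
    (hz : 0 < z)
    (e0 : 1 + a + c = b) (e1 : k + a * x + c * y = k * r)
    (e2 : k * (k - 1) + a * (x * (x - 1)) + c * (y * (y - 1)) = k * (k - 1) * l2)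
    (e3 : k * (k - 1) * (k - 2) + a * (x * (x - 1) * (x - 2)) + c * (y * (y - 1) * (y - 2))
      = k * (k - 1) * (k - 2) * l)
    (D2 : l2 * (k - 2) = l * (v - 2)) (D1 : r * (k - 1) = l2 * (v - 1)) (D0 : b * k = r * v)
    (hy : y = x + z) (hke : k = x + e * z) (hg : l2 = l + z * g) :
    (e * (e - 1) * z * ((z + 2 * x - 1) * l - x * (x + z))
      = g * ((z + 2 * x - 1) * ((z + 2 * x - 1) * (x + e * z) - x * (x + z))
        - 2 * x * (x + z) * (x + e * z - 1))) ∧
    ((x + e * z - 1) * l * (2 * (x + e * z - 1) * g - e * (e - 1) * z)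
      = (z + 2 * x - 1) * (x + e * z - 2) * g * (l + z * g)) := by
  have hk0 : k ≠ 0 := by omega
  have hvk : v - k ≠ 0 := by omega
  -- E1
  have E1 : k * (k - 1) * (l2 - 1) - (x + y - 1) * k * (r - 1) + x * y * (b - 1) = 0 := by
    linear_combination (-1 : ℤ) * e2 + (x + y - 1) * e1 - x * y * e0
  have E2k : k * (k - 1) * (k - 2) * (l - 1) + (3 - x - y) * (k * (k - 1) * (l2 - 1))
      + (x - 1) * (y - 1) * (k * (r - 1)) = 0 := by
    linear_combination (-1 : ℤ) * e3 - (3 - x - y) * e2 - (x - 1) * (y - 1) * e1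
  have E2 : (k - 1) * (k - 2) * (l - 1) + (3 - x - y) * ((k - 1) * (l2 - 1))
      + (x - 1) * (y - 1) * (r - 1) = 0 := by
    apply mul_left_cancel₀ hk0
    linear_combination E2k
  have E3 : k * (k - 1) * (l2 - l - 1) - (x + y - 1) * k * (r - l2 - 1) + x * y * (b - r - 1)
      = 0 := by
    apply mul_left_cancel₀ hvk
    linear_combination (v - 2 * k) * E1 + E2k + k * (k - 1) * D2 - (x + y - 1) * k * D1
      + x * y * D0
  -- E1 minus E3
  have E4 : (k - x) * (k - y) * r = k * (k - 1) * (r - l) - (x + y - 1) * k * (r - l2) := by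
    linear_combination E1 - E3
  have E4' : (k - x) * (k - y) * l
      = (l2 - l) * ((x + y - 1) * k - x * y) - (r - l2) * (x * y) := by
    linear_combination E4
  have E5 : (k - x) * (k - y) = 2 * (k - 1) * (l2 - l) - (x + y - 1) * (r - l2) := by
    linear_combination E4' - E2
  have R0 : (k - 1) * (r - l2) * l = (k - 2) * (l2 - l) * l2 := by
    linear_combination l * D1 - l2 * D2
  subst hy
  have hk1 : k - x = e * z := by rw [hke]; ring
  have hk2 : k - (x + z) = (e - 1) * z := by rw [hke]; ring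
  rw [hk1, hk2] at E4' E5
  have hgz : l2 - l = z * g := by rw [hg]; ring
  rw [hgz] at E4' E5 R0
  constructor
  · apply mul_left_cancel₀ hz.ne'
    rw [hke] at E4' E5
    linear_combination (z + 2 * x - 1) * E4' - x * (x + z) * E5
  · apply mul_left_cancel₀ hz.ne'
    rw [hke] at E5 R0
    rw [hg] at R0 E5
    linear_combination (z + 2 * x - 1) * R0 - (x + e * z - 1) * l * E5

/-- **Bound.** In a quasi-symmetric 3-design with intersection numbers `1 ≤ x < y`:
`y - x ≤ x² + 3`, and if `y - x ≥ x + 4`, then `λ ≥ x + y` and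
`k - x ≤ λ₂ - λ`, where `λ₂` is the number of blocks through two points. -/
theorem main (B : Finset (Finset P)) (k lam x y : ℕ) (hk : 3 ≤ k) (hkv : k < Fintype.card P)
    (hB : ∀ b ∈ B, b.card = k) (h3 : ∀ T : Finset P, T.card = 3 → deg B T = lam) (hx : 1 ≤ x)
    (hxy : x < y)
    (hint : ∀ b₁ ∈ B, ∀ b₂ ∈ B, b₁ ≠ b₂ → (b₁ ∩ b₂).card = x ∨ (b₁ ∩ b₂).card = y)
    (hx1 : ∃ b₁ ∈ B, ∃ b₂ ∈ B, b₁ ≠ b₂ ∧ (b₁ ∩ b₂).card = x)
    (hy1 : ∃ b₁ ∈ B, ∃ b₂ ∈ B, b₁ ≠ b₂ ∧ (b₁ ∩ b₂).card = y) :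
    y ≤ x ^ 2 + x + 3 ∧ (2 * x + 4 ≤ y → x + y ≤ lam ∧
      ∀ S : Finset P, S.card = 2 → lam + k ≤ deg B S + x) := by
  obtain ⟨l2, r, hl2, hr, d2, d1, d0⟩ := basic B k lam hk hkv hB h3
  obtain ⟨b0, hb0, b0', hb0', hne0, hi0⟩ := hx1
  obtain ⟨b1, hb1, b1', hb1', hne1, hi1⟩ := hy1
  -- y < k
  have hyk : y < k := by
    have h1 : (b1 ∩ b1').card < b1.card := by
      apply card_lt_card
      refine ⟨inter_subset_left, fun h => hne1 ?_⟩
      have h2 : b1 ⊆ b1' := fun p hp => (mem_inter.1 (h hp)).2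
      exact eq_of_subset_of_card_le h2 (by rw [hB _ hb1, hB _ hb1'])
    rw [hi1, hB _ hb1] at h1
    exact h1
  -- lam ≥ 1
  have hlam : 1 ≤ lam := by
    obtain ⟨T, hT, hTc⟩ := Finset.exists_subset_card_eq (s := b0) (n := 3) (by rw [hB _ hb0]; omega)
    rw [← h3 T hTc]
    unfold deg
    exact card_pos.2 ⟨b0, mem_filter.2 ⟨hb0, hT⟩⟩
  -- the counting equations for a block
  have eqs : ∀ b ∈ B, (1 : ℤ) + cnt B b x + cnt B b y = B.card ∧
      (k : ℤ) + cnt B b x * x + cnt B b y * y = k * r ∧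
      (k : ℤ) * (k - 1) + cnt B b x * (x * (x - 1)) + cnt B b y * (y * (y - 1))
        = k * (k - 1) * l2 ∧
      (k : ℤ) * (k - 1) * (k - 2) + cnt B b x * (x * (x - 1) * (x - 2))
          + cnt B b y * (y * (y - 1) * (y - 2))
        = k * (k - 1) * (k - 2) * lam := by
    intro b hb
    have hbk := hB b hb
    have s0 := sum_choose B k x y (by omega) b hb hbk hint 0
    have s1 := sum_choose B k x y (by omega) b hb hbk hint 1
    have s2 := sum_choose B k x y (by omega) b hb hbk hint 2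
    have s3 := sum_choose B k x y (by omega) b hb hbk hint 3
    rw [← sum_deg] at s1 s2 s3
    have t1 : ∑ T ∈ b.powersetCard 1, deg B T = k * r := by
      rw [Finset.sum_congr rfl (g := fun _ => r) (fun T hT => hr T (mem_powersetCard.1 hT).2),
        Finset.sum_const, card_powersetCard, hbk, smul_eq_mul, Nat.choose_one_right]
    have t2 : ∑ T ∈ b.powersetCard 2, deg B T = k.choose 2 * l2 := by
      rw [Finset.sum_congr rfl (g := fun _ => l2) (fun T hT => hl2 T (mem_powersetCard.1 hT).2),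
        Finset.sum_const, card_powersetCard, hbk, smul_eq_mul]
    have t3 : ∑ T ∈ b.powersetCard 3, deg B T = k.choose 3 * lam := by
      rw [Finset.sum_congr rfl (g := fun _ => lam) (fun T hT => h3 T (mem_powersetCard.1 hT).2),
        Finset.sum_const, card_powersetCard, hbk, smul_eq_mul]
    rw [t1] at s1
    rw [t2] at s2
    rw [t3] at s3
    simp only [Nat.choose_zero_right, Finset.sum_const, smul_eq_mul, mul_one] at s0
    simp only [Nat.choose_one_right] at s1
    have ck2 := choose_two_cast k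
    have cx2 := choose_two_cast x
    have cy2 := choose_two_cast y
    have ck3 := choose_three_cast k
    have cx3 := choose_three_cast x
    have cy3 := choose_three_cast y
    have s2' : ((k.choose 2 : ℕ) : ℤ) * l2
        = (k.choose 2 : ℕ) + cnt B b x * (x.choose 2 : ℕ) + cnt B b y * (y.choose 2 : ℕ) := by
      exact_mod_cast s2
    have s3' : ((k.choose 3 : ℕ) : ℤ) * lam
        = (k.choose 3 : ℕ) + cnt B b x * (x.choose 3 : ℕ) + cnt B b y * (y.choose 3 : ℕ) := by
      exact_mod_cast s3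
    refine ⟨by rw [s0]; push_cast; ring, ?_, ?_, ?_⟩
    · have : (k : ℤ) * r = k + cnt B b x * x + cnt B b y * y := by exact_mod_cast s1
      linarith
    · linear_combination (-1 : ℤ) * ck2 - (cnt B b x : ℤ) * cx2 - (cnt B b y : ℤ) * cy2
        + (l2 : ℤ) * ck2 - 2 * s2'
    · linear_combination (-1 : ℤ) * ck3 - (cnt B b x : ℤ) * cx3 - (cnt B b y : ℤ) * cy3
        + (lam : ℤ) * ck3 - 6 * s3'
  obtain ⟨e0, e1, e2, e3⟩ := eqs b0 hb0
  obtain ⟨f0, f1, -, -⟩ := eqs b1 hb1
  -- positivity of the two counts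
  have ha : 0 < cnt B b0 x := by
    unfold cnt
    exact card_pos.2 ⟨b0', mem_filter.2 ⟨mem_erase.2 ⟨hne0.symm, hb0'⟩, hi0⟩⟩
  have hc1 : 0 < cnt B b1 y := by
    unfold cnt
    exact card_pos.2 ⟨b1', mem_filter.2 ⟨mem_erase.2 ⟨hne1.symm, hb1'⟩, hi1⟩⟩
  have hxy' : (0 : ℤ) < (y : ℤ) - x := by
    have : (x : ℤ) < y := by exact_mod_cast hxy
    linarith
  have hcc : (cnt B b0 y : ℤ) = cnt B b1 y := by
    have : ((cnt B b0 y : ℤ) - cnt B b1 y) * ((y : ℤ) - x) = 0 := by
      linear_combination e1 - f1 - (x : ℤ) * (e0 - f0)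
    rcases mul_eq_zero.1 this with h | h
    · linarith
    · exact absurd h hxy'.ne'
  have hc : 0 < cnt B b0 y := by omega
  -- cast the divisibility equations
  have D2 : (l2 : ℤ) * (k - 2) = lam * ((Fintype.card P : ℤ) - 2) := by
    have h1 : ((k - 2 : ℕ) : ℤ) = (k : ℤ) - 2 := by omega
    have h2 : ((Fintype.card P - 2 : ℕ) : ℤ) = (Fintype.card P : ℤ) - 2 := by omega
    rw [← h1, ← h2]
    exact_mod_cast d2
  have D1 : (r : ℤ) * (k - 1) = l2 * ((Fintype.card P : ℤ) - 1) := by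
    have h1 : ((k - 1 : ℕ) : ℤ) = (k : ℤ) - 1 := by omega
    have h2 : ((Fintype.card P - 1 : ℕ) : ℤ) = (Fintype.card P : ℤ) - 1 := by omega
    rw [← h1, ← h2]
    exact_mod_cast d1
  have D0 : (B.card : ℤ) * k = r * (Fintype.card P : ℤ) := by exact_mod_cast d0
  obtain ⟨v, hv⟩ : ∃ v : ℤ, v = (Fintype.card P : ℤ) := ⟨_, rfl⟩
  obtain ⟨a, hadef⟩ : ∃ a : ℤ, a = (cnt B b0 x : ℤ) := ⟨_, rfl⟩
  obtain ⟨c, hcdef⟩ : ∃ c : ℤ, c = (cnt B b0 y : ℤ) := ⟨_, rfl⟩
  have ha' : 0 < a := by rw [hadef]; exact_mod_cast ha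
  have hc' : 0 < c := by rw [hcdef]; exact_mod_cast hc
  have hkv' : (k : ℤ) < v := by rw [hv]; exact_mod_cast hkv
  have hk' : (3 : ℤ) ≤ k := by exact_mod_cast hk
  have hlam' : (1 : ℤ) ≤ lam := by exact_mod_cast hlam
  rw [← hadef, ← hcdef] at e0 e1 e2 e3
  rw [← hv] at D0 D1 D2
  -- r > k by the variance identity
  have hvar : (v - 1) * (a * c * ((y : ℤ) - x) ^ 2) = r * ((r : ℤ) - k) * (v - k) ^ 2 := by
    have i1 : a * c * ((y : ℤ) - x) ^ 2
        = (a + c) * (a * x ^ 2 + c * y ^ 2) - (a * x + c * y) ^ 2 := by ring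
    have i2 : a + c = (B.card : ℤ) - 1 := by linarith
    have i3 : a * x + c * y = k * r - k := by linarith
    have i4 : a * x ^ 2 + c * y ^ 2 = k * (k - 1) * l2 - k * (k - 1) + (k * r - k) := by
      linear_combination e2 + e1
    rw [i1, i2, i3, i4]
    have hk0 : (k : ℤ) ≠ 0 := by omega
    apply mul_left_cancel₀ hk0
    linear_combination ((v - 1) * (k * (k - 1) * l2 - k * (k - 1) + (k * r - k))) * D0
      - ((k : ℤ) * (k - 1) * (v * r - k)) * D1
  have hrk : (k : ℤ) < r := by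
    have h1 : 0 < (v - 1) * (a * c * ((y : ℤ) - x) ^ 2) := by
      apply mul_pos (by linarith)
      apply mul_pos (mul_pos ha' hc')
      positivity
    rw [hvar] at h1
    have h2 : 0 < (v - k) ^ 2 := by
      have : 0 < v - k := by linarith
      positivity
    have h3 : (0 : ℤ) < r * ((r : ℤ) - k) := (pos_iff_pos_of_mul_pos h1).2 h2
    have h4 : (0 : ℤ) ≤ r := by positivity
    by_contra hcon
    push Not at hcon
    have : (r : ℤ) * ((r : ℤ) - k) ≤ 0 := mul_nonpos_of_nonneg_of_nonpos h4 (by linarith)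
    linarith
  have hbv : Fintype.card P < B.card := by
    have h1 : (k : ℤ) * v < B.card * k := by
      rw [D0]
      exact mul_lt_mul_of_pos_right hrk (by linarith)
    have h2 : v < (B.card : ℤ) := by
      have h3 : v * (k : ℤ) < (B.card : ℤ) * k := by linarith
      exact lt_of_mul_lt_mul_right h3 (by linarith)
    rw [hv] at h2
    exact_mod_cast h2
  have hdv := dvd_sub B k x y (by omega) hB hint hbv
  -- lam < l2
  have hlt : (lam : ℤ) < l2 := by
    have h1 : (lam : ℤ) * (k - 2) < l2 * (k - 2) := by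
      rw [D2]
      exact mul_lt_mul_of_pos_left (by linarith) (by linarith)
    exact lt_of_mul_lt_mul_right h1 (by linarith)
  have hdd := derived_dvd B k lam l2 x y hB h3 hl2 hint (by exact_mod_cast hlt) (by omega)
  obtain ⟨z, hz⟩ : ∃ z : ℤ, z = (y : ℤ) - x := ⟨_, rfl⟩
  rw [← hz] at hdv hdd
  have hzpos : 0 < z := by rw [hz]; exact hxy'
  have hdl : z ∣ (l2 : ℤ) - lam := by
    have := dvd_add hdd hdv
    have h1 : ((l2 : ℤ) - lam) - ((k : ℤ) - x) + ((k : ℤ) - x) = (l2 : ℤ) - lam := by ring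
    rwa [h1] at this
  obtain ⟨e, he⟩ := hdv
  obtain ⟨g, hg⟩ := hdl
  have hgpos : 0 < g := by
    have h1 : 0 < z * g := by rw [← hg]; linarith
    exact (pos_iff_pos_of_mul_pos h1).1 hzpos
  have he2 : 2 ≤ e := by
    have h1 : z * 1 < z * e := by
      rw [← he, hz]
      have : (y : ℤ) < k := by exact_mod_cast hyk
      linarith
    have := lt_of_mul_lt_mul_left h1 hzpos.le
    linarith
  obtain ⟨E6, R⟩ := relations k x y v lam l2 r B.card a c z g e hk' hkv' hlam' hzpos e0 e1 e2 e3 D2 D1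
    D0 (by rw [hz]; ring) (by linear_combination he) (by linear_combination hg)
  have hx' : (1 : ℤ) ≤ x := by exact_mod_cast hx
  constructor
  · by_contra hcon
    push Not at hcon
    have hcon' : ((x : ℤ) ^ 2 + x + 3) < y := by exact_mod_cast hcon
    have hxx : (x : ℤ) * 1 ≤ x * x := mul_le_mul_of_nonneg_left hx' (by linarith)
    have hz4 : (x : ℤ) + 4 ≤ z := by
      rw [hz]
      have h9 : (x : ℤ) ^ 2 = x * x := sq _
      linarith
    obtain ⟨-, -, h⟩ := core x z e lam g hx' hz4 he2 (by linarith) hgpos E6 R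
    rw [hz] at h
    linarith
  · intro h2x
    have h2x' : 2 * (x : ℤ) + 4 ≤ y := by exact_mod_cast h2x
    obtain ⟨h5, h6, -⟩ := core x z e lam g hx' (by rw [hz]; linarith) he2 (by linarith) hgpos E6 R
    constructor
    · have : (x : ℤ) + y ≤ lam := by rw [hz] at h5; linarith
      exact_mod_cast this
    · intro S hS
      rw [hl2 S hS]
      have h7 : z * e ≤ z * g := mul_le_mul_of_nonneg_left h6 hzpos.le
      have : (lam : ℤ) + k ≤ l2 + x := by linarith
      exact_mod_cast this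

end Pool.Agent.TH500.QS
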