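import Pool.Agent.TH413.QS.Params
import Pool.Agent.TH500.QS.Core

set_option autoImplicit false

namespace Pool.Agent.TH500.QS

open Finset
open Pool.Agent.TH413.QS

variable {P : Type*} [Fintype P] [DecidableEq P]

set_option linter.unusedSectionVars false

/-- The divisibility condition for the design of the blocks through a point:
`y - x` divides `(λ₂ - λ₃) - (k - x)`. -/
lemma derived_dvd (B : Finset (Finset P)) (k lam l2 x y : ℕ)
    (hB : ∀ b ∈ B, b.card = k) (h3 : ∀ T : Finset P, T.card = 3 → deg B T = lam)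
    (h2 : ∀ S : Finset P, S.card = 2 → deg B S = l2)
    (hint : ∀ b₁ ∈ B, ∀ b₂ ∈ B, b₁ ≠ b₂ → (b₁ ∩ b₂).card = x ∨ (b₁ ∩ b₂).card = y)
    (hlt : lam < l2) (hP : 3 ≤ Fintype.card P) :
    ((y : ℤ) - x) ∣ (((l2 : ℤ) - lam) - ((k : ℤ) - x)) := by
  classical
  obtain ⟨S, -, hS⟩ := Finset.exists_subset_card_eq (s := (univ : Finset P)) (n := 3)
    (by rw [card_univ]; exact hP)
  obtain ⟨t, p, q, htp, htq, hpq, -⟩ := Finset.card_eq_three.1 hS
  have c2p : ({t, p} : Finset P).card = 2 := card_pair htp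
  have c2q : ({t, q} : Finset P).card = 2 := card_pair htq
  -- a block through t, p and not q
  obtain ⟨b, hb, htb, hpb, hqb⟩ : ∃ b ∈ B, t ∈ b ∧ p ∈ b ∧ q ∉ b := by
    by_contra hcon
    push Not at hcon
    have h1 : deg B {t, p} ≤ deg B {t, p, q} := by
      unfold deg
      apply card_le_card
      intro b hb
      rw [mem_filter] at hb ⊢
      refine ⟨hb.1, ?_⟩
      have ht : t ∈ b := hb.2 (by simp)
      have hp : p ∈ b := hb.2 (by simp)
      have hq := hcon b hb.1 ht hp
      intro u hu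
      simp only [mem_insert, mem_singleton] at hu
      rcases hu with rfl | rfl | rfl <;> assumption
    rw [h2 _ c2p, h3 _ (card_eq_three.2 ⟨t, p, q, htp, htq, hpq, rfl⟩)] at h1
    omega
  let w : Finset P → ℤ := fun b' =>
    if t ∈ b' then (if p ∈ b' then 1 else 0) - (if q ∈ b' then 1 else 0) else 0
  have hw : ∀ s : P, ∑ b' ∈ B, w b' * (if s ∈ b' then 1 else 0)
      = (deg B {t, p, s} : ℤ) - deg B {t, q, s} := by
    intro s
    rw [deg_eq_sum, deg_eq_sum]
    push_cast
    rw [← Finset.sum_sub_distrib]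
    refine Finset.sum_congr rfl fun b' _ => ?_
    simp only [w, insert_subset_iff, singleton_subset_iff]
    by_cases h1 : t ∈ b' <;> by_cases h2 : p ∈ b' <;> by_cases h3 : q ∈ b' <;>
      by_cases h4 : s ∈ b' <;> simp [h1, h2, h3, h4]
  have hw0 : ∑ b' ∈ B, w b' = 0 := by
    have h1 := hw t
    have e1 : ({t, p, t} : Finset P) = {t, p} := by ext u; simp; tauto
    have e2 : ({t, q, t} : Finset P) = {t, q} := by ext u; simp; tauto
    rw [e1, e2, h2 _ c2p, h2 _ c2q, sub_self] at h1
    rw [← h1]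
    refine Finset.sum_congr rfl fun b' _ => ?_
    simp only [w]
    by_cases h1 : t ∈ b' <;> simp [h1]
  have hsum : ∑ b' ∈ B, w b' * ((b ∩ b').card : ℤ) = (l2 : ℤ) - lam := by
    have h1 : ∀ b' : Finset P, ((b ∩ b').card : ℤ) = ∑ s ∈ b, (if s ∈ b' then (1 : ℤ) else 0) := by
      intro b'
      rw [← Finset.filter_mem_eq_inter, Finset.card_filter]
      push_cast
      rfl
    simp_rw [h1, Finset.mul_sum]
    rw [Finset.sum_comm]
    have h4 : ∀ s ∈ b, ∑ b' ∈ B, w b' * (if s ∈ b' then (1 : ℤ) else 0)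
        = if s = p then (l2 : ℤ) - lam else 0 := by
      intro s hs
      rw [hw s]
      have hsq : s ≠ q := fun h => hqb (h ▸ hs)
      by_cases hsp : s = p
      · subst hsp
        have e1 : ({t, s, s} : Finset P) = {t, s} := by ext u; simp
        rw [if_pos rfl, e1, h2 _ c2p,
          h3 _ (card_eq_three.2 ⟨t, q, s, htq, htp, hpq.symm, rfl⟩)]
      · rw [if_neg hsp]
        by_cases hst : s = t
        · subst hst
          have e1 : ({s, p, s} : Finset P) = {s, p} := by ext u; simp; tauto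
          have e2 : ({s, q, s} : Finset P) = {s, q} := by ext u; simp; tauto
          rw [e1, e2, h2 _ c2p, h2 _ c2q, sub_self]
        · rw [h3 _ (card_eq_three.2 ⟨t, p, s, htp, fun h => hst h.symm, fun h => hsp h.symm, rfl⟩),
            h3 _ (card_eq_three.2 ⟨t, q, s, htq, fun h => hst h.symm, fun h => hsq h.symm, rfl⟩),
            sub_self]
    rw [Finset.sum_congr rfl h4, Finset.sum_ite_eq' b p]
    simp [hpb]
  have hwb : w b = 1 := by simp [w, htb, hpb, hqb]
  rw [← Finset.add_sum_erase _ _ hb] at hsum hw0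
  rw [hwb, inter_self, hB b hb, one_mul] at hsum
  rw [hwb] at hw0
  have h5 : ∑ b' ∈ B.erase b, w b' * ((b ∩ b').card : ℤ)
      = ∑ b' ∈ B.erase b, (w b' * x) + ∑ b' ∈ B.erase b, w b' * (((b ∩ b').card : ℤ) - x) := by
    rw [← Finset.sum_add_distrib]
    refine Finset.sum_congr rfl fun b' _ => ?_
    ring
  rw [h5, ← Finset.sum_mul] at hsum
  have h6 : ((l2 : ℤ) - lam) - ((k : ℤ) - x)
      = ∑ b' ∈ B.erase b, w b' * (((b ∩ b').card : ℤ) - x) := by
    linear_combination (-1 : ℤ) * hsum + (x : ℤ) * hw0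
  rw [h6]
  apply Finset.dvd_sum
  intro b' hb'
  apply Dvd.dvd.mul_left
  have hne : b ≠ b' := fun h => (mem_erase.1 hb').1 h.symm
  rcases hint b hb b' (mem_erase.1 hb').2 hne with h | h
  · rw [h]; simp
  · rw [h]

end Pool.Agent.TH500.QS
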