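import Pool.Agent.TH500.QS.Fin2

set_option autoImplicit false

namespace Pool.Agent.TH500.QS

/-- coefficient of `l²` -/
def al (x y k : ℤ) : ℤ :=
  k ^ 3 * ((x + y - 1) ^ 2 - 4 * (x * y)) + k ^ 2 * (12 * (x * y) - (x + y - 1) ^ 2)
    - k * (2 * (x + y - 1) * (x * y) + 12 * (x * y)) + (2 * (x + y - 1) * (x * y) + 4 * (x * y))

/-- coefficient of `l` -/
def be (x y k : ℤ) : ℤ :=
  -(k ^ 3 * ((x + y - 1) * ((x + y - 1) ^ 2 - 4 * (x * y))))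
    + k ^ 2 * ((x + y - 1) ^ 3 + (x + y - 1) ^ 2 * (x * y) - 10 * (x + y - 1) * (x * y)
      - 4 * (x * y) ^ 2)
    + k * (6 * (x + y - 1) * (x * y) + 10 * (x * y) ^ 2)
    - ((x + y - 1) * (x * y) ^ 2 + 6 * (x * y) ^ 2)

/-- constant coefficient -/
def ga (x y k : ℤ) : ℤ :=
  -(k ^ 3 * (x * y) ^ 2) + k ^ 2 * ((x + y - 1) * (x * y) ^ 2 + 3 * (x * y) ^ 2)
    - k * (2 * (x + y - 1) * (x * y) ^ 2 + (x * y) ^ 3 + 2 * (x * y) ^ 2) + 2 * (x * y) ^ 3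

/-- The relation between `k` and `l = λ` (divided by `x + y - 1`). -/
def Fxy (x y k l : ℤ) : ℤ := al x y k * l ^ 2 + be x y k * l + ga x y k

theorem f2_3 (e l : ℤ) (he : 2 ≤ e) (h : Fxy 2 3 (2 + 1 * e) l = 0) :
    e = 2 := by
  by_contra hcon
  obtain ⟨t, ht, rfl⟩ : ∃ t : ℤ, 0 ≤ t ∧ e = 3 + t := ⟨e - 3, by omega, by ring⟩
  have h1 : (2 * al 2 3 (2 + 1 * (3 + t)) * l + be 2 3 (2 + 1 * (3 + t))) ^ 2
      = be 2 3 (2 + 1 * (3 + t)) ^ 2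
        - 4 * al 2 3 (2 + 1 * (3 + t)) * ga 2 3 (2 + 1 * (3 + t)) := by
    unfold Fxy at h
    linear_combination (4 * al 2 3 (2 + 1 * (3 + t))) * h
  have h2 : 0 < -(be 2 3 (2 + 1 * (3 + t)) ^ 2
        - 4 * al 2 3 (2 + 1 * (3 + t)) * ga 2 3 (2 + 1 * (3 + t))) := by
    unfold al be ga
    ring_nf
    positivity
  have h3 := sq_nonneg (2 * al 2 3 (2 + 1 * (3 + t)) * l + be 2 3 (2 + 1 * (3 + t)))
  linarith

set_option maxRecDepth 100000 in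
theorem cf2_4 : ∀ e : ℕ, e < 3 → ∀ l : ℕ, l < 4 → e < 2 ∨ l < 1 ∨
    Fxy 2 4 (2 + 2 * (e : ℤ)) (l : ℤ) ≠ 0 := by
  decide +kernel

theorem f2_4 (e l : ℤ) (he : 2 ≤ e) (hl : 1 ≤ l) (h : Fxy 2 4 (2 + 2 * e) l = 0) :
    False := by
  by_cases hE : e < 3
  · by_cases hL : l < 4
    · obtain ⟨e', rfl⟩ := Int.eq_ofNat_of_zero_le (by linarith : 0 ≤ e)
      obtain ⟨l', rfl⟩ := Int.eq_ofNat_of_zero_le (by linarith : 0 ≤ l)
      rcases cf2_4 e' (by exact_mod_cast hE) l' (by exact_mod_cast hL) with h1 | h1 | h1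
      · omega
      · omega
      · exact h1 h
    · obtain ⟨u, hu, rfl⟩ : ∃ u : ℤ, 0 ≤ u ∧ l = 4 + u := ⟨l - 4, by linarith, by ring⟩
      unfold Fxy al be ga at h
      have h2 : 0 ≤ u ^ 2 := by positivity
      interval_cases e <;> (ring_nf at h; linarith)
  · obtain ⟨t, ht, rfl⟩ : ∃ t : ℤ, 0 ≤ t ∧ e = 3 + t := ⟨e - 3, by linarith, by ring⟩
    have h1 : (2 * al 2 4 (2 + 2 * (3 + t)) * l + be 2 4 (2 + 2 * (3 + t))) ^ 2
        = be 2 4 (2 + 2 * (3 + t)) ^ 2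
          - 4 * al 2 4 (2 + 2 * (3 + t)) * ga 2 4 (2 + 2 * (3 + t)) := by
      unfold Fxy at h
      linear_combination (4 * al 2 4 (2 + 2 * (3 + t))) * h
    have h2 : 0 < -(be 2 4 (2 + 2 * (3 + t)) ^ 2
          - 4 * al 2 4 (2 + 2 * (3 + t)) * ga 2 4 (2 + 2 * (3 + t))) := by
      unfold al be ga
      ring_nf
      positivity
    have h3 := sq_nonneg
      (2 * al 2 4 (2 + 2 * (3 + t)) * l + be 2 4 (2 + 2 * (3 + t)))
    linarith

set_option maxRecDepth 100000 in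
theorem cf2_5 : ∀ e : ℕ, e < 6 → ∀ l : ℕ, l < 11 → e < 2 ∨ l < 1 ∨
    Fxy 2 5 (2 + 3 * (e : ℤ)) (l : ℤ) ≠ 0 := by
  decide +kernel

theorem f2_5 (e l : ℤ) (he : 2 ≤ e) (hl : 1 ≤ l) (h : Fxy 2 5 (2 + 3 * e) l = 0) :
    False := by
  by_cases hE : e < 6
  · by_cases hL : l < 11
    · obtain ⟨e', rfl⟩ := Int.eq_ofNat_of_zero_le (by linarith : 0 ≤ e)
      obtain ⟨l', rfl⟩ := Int.eq_ofNat_of_zero_le (by linarith : 0 ≤ l)
      rcases cf2_5 e' (by exact_mod_cast hE) l' (by exact_mod_cast hL) with h1 | h1 | h1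
      · omega
      · omega
      · exact h1 h
    · obtain ⟨u, hu, rfl⟩ : ∃ u : ℤ, 0 ≤ u ∧ l = 11 + u := ⟨l - 11, by linarith, by ring⟩
      unfold Fxy al be ga at h
      have h2 : 0 ≤ u ^ 2 := by positivity
      interval_cases e <;> (ring_nf at h; linarith)
  · obtain ⟨t, ht, rfl⟩ : ∃ t : ℤ, 0 ≤ t ∧ e = 6 + t := ⟨e - 6, by linarith, by ring⟩
    have h1 : (2 * al 2 5 (2 + 3 * (6 + t)) * l + be 2 5 (2 + 3 * (6 + t))) ^ 2
        = be 2 5 (2 + 3 * (6 + t)) ^ 2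
          - 4 * al 2 5 (2 + 3 * (6 + t)) * ga 2 5 (2 + 3 * (6 + t)) := by
      unfold Fxy at h
      linear_combination (4 * al 2 5 (2 + 3 * (6 + t))) * h
    have h2 : 0 < -(be 2 5 (2 + 3 * (6 + t)) ^ 2
          - 4 * al 2 5 (2 + 3 * (6 + t)) * ga 2 5 (2 + 3 * (6 + t))) := by
      unfold al be ga
      ring_nf
      positivity
    have h3 := sq_nonneg
      (2 * al 2 5 (2 + 3 * (6 + t)) * l + be 2 5 (2 + 3 * (6 + t)))
    linarith

set_option maxRecDepth 100000 in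
theorem cf2_6 : ∀ e : ℕ, e < 162 → ∀ l : ℕ, l < 16 → e < 2 ∨ l < 1 ∨
    Fxy 2 6 (2 + 4 * (e : ℤ)) (l : ℤ) ≠ 0 := by
  decide +kernel

theorem f2_6 (e l : ℤ) (he : 2 ≤ e) (hl : 1 ≤ l) (h : Fxy 2 6 (2 + 4 * e) l = 0) :
    False := by
  by_cases hL : l < 16
  · by_cases hE : e < 162
    · obtain ⟨e', rfl⟩ := Int.eq_ofNat_of_zero_le (by linarith : 0 ≤ e)
      obtain ⟨l', rfl⟩ := Int.eq_ofNat_of_zero_le (by linarith : 0 ≤ l)
      rcases cf2_6 e' (by exact_mod_cast hE) l' (by exact_mod_cast hL) with h1 | h1 | h1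
      · omega
      · omega
      · exact h1 h
    · obtain ⟨t, ht, rfl⟩ : ∃ t : ℤ, 0 ≤ t ∧ e = 162 + t := ⟨e - 162, by linarith, by ring⟩
      unfold Fxy al be ga at h
      have h2 : 0 ≤ t ^ 2 := by positivity
      have h3 : 0 ≤ t ^ 3 := by positivity
      interval_cases l <;> (ring_nf at h; linarith)
  · obtain ⟨t, ht, rfl⟩ : ∃ t : ℤ, 0 ≤ t ∧ e = 2 + t := ⟨e - 2, by linarith, by ring⟩
    obtain ⟨u, hu, rfl⟩ : ∃ u : ℤ, 0 ≤ u ∧ l = 16 + u := ⟨l - 16, by linarith, by ring⟩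
    have h1 : 0 < Fxy 2 6 (2 + 4 * (2 + t)) (16 + u) := by
      unfold Fxy al be ga
      ring_nf
      positivity
    linarith

set_option maxRecDepth 100000 in
theorem cf2_7 : ∀ e : ℕ, e < 42 → ∀ l : ℕ, l < 11 → e < 2 ∨ l < 1 ∨
    Fxy 2 7 (2 + 5 * (e : ℤ)) (l : ℤ) ≠ 0 := by
  decide +kernel

theorem f2_7 (e l : ℤ) (he : 2 ≤ e) (hl : 1 ≤ l) (h : Fxy 2 7 (2 + 5 * e) l = 0) :
    False := by
  by_cases hL : l < 11
  · by_cases hE : e < 42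
    · obtain ⟨e', rfl⟩ := Int.eq_ofNat_of_zero_le (by linarith : 0 ≤ e)
      obtain ⟨l', rfl⟩ := Int.eq_ofNat_of_zero_le (by linarith : 0 ≤ l)
      rcases cf2_7 e' (by exact_mod_cast hE) l' (by exact_mod_cast hL) with h1 | h1 | h1
      · omega
      · omega
      · exact h1 h
    · obtain ⟨t, ht, rfl⟩ : ∃ t : ℤ, 0 ≤ t ∧ e = 42 + t := ⟨e - 42, by linarith, by ring⟩
      unfold Fxy al be ga at h
      have h2 : 0 ≤ t ^ 2 := by positivity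
      have h3 : 0 ≤ t ^ 3 := by positivity
      interval_cases l <;> (ring_nf at h; linarith)
  · obtain ⟨t, ht, rfl⟩ : ∃ t : ℤ, 0 ≤ t ∧ e = 2 + t := ⟨e - 2, by linarith, by ring⟩
    obtain ⟨u, hu, rfl⟩ : ∃ u : ℤ, 0 ≤ u ∧ l = 11 + u := ⟨l - 11, by linarith, by ring⟩
    have h1 : 0 < Fxy 2 7 (2 + 5 * (2 + t)) (11 + u) := by
      unfold Fxy al be ga
      ring_nf
      positivity
    linarith

set_option maxRecDepth 100000 in
theorem cf2_8 : ∀ e : ℕ, e < 19 → ∀ l : ℕ, l < 11 → e < 2 ∨ l < 1 ∨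
    Fxy 2 8 (2 + 6 * (e : ℤ)) (l : ℤ) ≠ 0 := by
  decide +kernel

theorem f2_8 (e l : ℤ) (he : 2 ≤ e) (hl : 1 ≤ l) (h : Fxy 2 8 (2 + 6 * e) l = 0) :
    False := by
  by_cases hL : l < 11
  · by_cases hE : e < 19
    · obtain ⟨e', rfl⟩ := Int.eq_ofNat_of_zero_le (by linarith : 0 ≤ e)
      obtain ⟨l', rfl⟩ := Int.eq_ofNat_of_zero_le (by linarith : 0 ≤ l)
      rcases cf2_8 e' (by exact_mod_cast hE) l' (by exact_mod_cast hL) with h1 | h1 | h1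
      · omega
      · omega
      · exact h1 h
    · obtain ⟨t, ht, rfl⟩ : ∃ t : ℤ, 0 ≤ t ∧ e = 19 + t := ⟨e - 19, by linarith, by ring⟩
      unfold Fxy al be ga at h
      have h2 : 0 ≤ t ^ 2 := by positivity
      have h3 : 0 ≤ t ^ 3 := by positivity
      interval_cases l <;> (ring_nf at h; linarith)
  · obtain ⟨t, ht, rfl⟩ : ∃ t : ℤ, 0 ≤ t ∧ e = 2 + t := ⟨e - 2, by linarith, by ring⟩
    obtain ⟨u, hu, rfl⟩ : ∃ u : ℤ, 0 ≤ u ∧ l = 11 + u := ⟨l - 11, by linarith, by ring⟩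
    have h1 : 0 < Fxy 2 8 (2 + 6 * (2 + t)) (11 + u) := by
      unfold Fxy al be ga
      ring_nf
      positivity
    linarith

set_option maxRecDepth 100000 in
theorem cf2_9 : ∀ e : ℕ, e < 134 → ∀ l : ℕ, l < 12 → e < 2 ∨ l < 1 ∨
    Fxy 2 9 (2 + 7 * (e : ℤ)) (l : ℤ) ≠ 0 := by
  decide +kernel

theorem f2_9 (e l : ℤ) (he : 2 ≤ e) (hl : 1 ≤ l) (h : Fxy 2 9 (2 + 7 * e) l = 0) :
    False := by
  by_cases hL : l < 12
  · by_cases hE : e < 134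
    · obtain ⟨e', rfl⟩ := Int.eq_ofNat_of_zero_le (by linarith : 0 ≤ e)
      obtain ⟨l', rfl⟩ := Int.eq_ofNat_of_zero_le (by linarith : 0 ≤ l)
      rcases cf2_9 e' (by exact_mod_cast hE) l' (by exact_mod_cast hL) with h1 | h1 | h1
      · omega
      · omega
      · exact h1 h
    · obtain ⟨t, ht, rfl⟩ : ∃ t : ℤ, 0 ≤ t ∧ e = 134 + t := ⟨e - 134, by linarith, by ring⟩
      unfold Fxy al be ga at h
      have h2 : 0 ≤ t ^ 2 := by positivity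
      have h3 : 0 ≤ t ^ 3 := by positivity
      interval_cases l <;> (ring_nf at h; linarith)
  · obtain ⟨t, ht, rfl⟩ : ∃ t : ℤ, 0 ≤ t ∧ e = 2 + t := ⟨e - 2, by linarith, by ring⟩
    obtain ⟨u, hu, rfl⟩ : ∃ u : ℤ, 0 ≤ u ∧ l = 12 + u := ⟨l - 12, by linarith, by ring⟩
    have h1 : 0 < Fxy 2 9 (2 + 7 * (2 + t)) (12 + u) := by
      unfold Fxy al be ga
      ring_nf
      positivity
    linarith

theorem f3_4 (e l : ℤ) (he : 2 ≤ e) (h : Fxy 3 4 (3 + 1 * e) l = 0) :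
    e = 2 := by
  by_contra hcon
  obtain ⟨t, ht, rfl⟩ : ∃ t : ℤ, 0 ≤ t ∧ e = 3 + t := ⟨e - 3, by omega, by ring⟩
  have h1 : (2 * al 3 4 (3 + 1 * (3 + t)) * l + be 3 4 (3 + 1 * (3 + t))) ^ 2
      = be 3 4 (3 + 1 * (3 + t)) ^ 2
        - 4 * al 3 4 (3 + 1 * (3 + t)) * ga 3 4 (3 + 1 * (3 + t)) := by
    unfold Fxy at h
    linear_combination (4 * al 3 4 (3 + 1 * (3 + t))) * h
  have h2 : 0 < -(be 3 4 (3 + 1 * (3 + t)) ^ 2
        - 4 * al 3 4 (3 + 1 * (3 + t)) * ga 3 4 (3 + 1 * (3 + t))) := by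
    unfold al be ga
    ring_nf
    positivity
  have h3 := sq_nonneg (2 * al 3 4 (3 + 1 * (3 + t)) * l + be 3 4 (3 + 1 * (3 + t)))
  linarith

set_option maxRecDepth 100000 in
theorem cf3_5 : ∀ e : ℕ, e < 3 → ∀ l : ℕ, l < 5 → e < 2 ∨ l < 1 ∨
    Fxy 3 5 (3 + 2 * (e : ℤ)) (l : ℤ) ≠ 0 := by
  decide +kernel

theorem f3_5 (e l : ℤ) (he : 2 ≤ e) (hl : 1 ≤ l) (h : Fxy 3 5 (3 + 2 * e) l = 0) :
    False := by
  by_cases hE : e < 3
  · by_cases hL : l < 5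
    · obtain ⟨e', rfl⟩ := Int.eq_ofNat_of_zero_le (by linarith : 0 ≤ e)
      obtain ⟨l', rfl⟩ := Int.eq_ofNat_of_zero_le (by linarith : 0 ≤ l)
      rcases cf3_5 e' (by exact_mod_cast hE) l' (by exact_mod_cast hL) with h1 | h1 | h1
      · omega
      · omega
      · exact h1 h
    · obtain ⟨u, hu, rfl⟩ : ∃ u : ℤ, 0 ≤ u ∧ l = 5 + u := ⟨l - 5, by linarith, by ring⟩
      unfold Fxy al be ga at h
      have h2 : 0 ≤ u ^ 2 := by positivity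
      interval_cases e <;> (ring_nf at h; linarith)
  · obtain ⟨t, ht, rfl⟩ : ∃ t : ℤ, 0 ≤ t ∧ e = 3 + t := ⟨e - 3, by linarith, by ring⟩
    have h1 : (2 * al 3 5 (3 + 2 * (3 + t)) * l + be 3 5 (3 + 2 * (3 + t))) ^ 2
        = be 3 5 (3 + 2 * (3 + t)) ^ 2
          - 4 * al 3 5 (3 + 2 * (3 + t)) * ga 3 5 (3 + 2 * (3 + t)) := by
      unfold Fxy at h
      linear_combination (4 * al 3 5 (3 + 2 * (3 + t))) * h
    have h2 : 0 < -(be 3 5 (3 + 2 * (3 + t)) ^ 2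
          - 4 * al 3 5 (3 + 2 * (3 + t)) * ga 3 5 (3 + 2 * (3 + t))) := by
      unfold al be ga
      ring_nf
      positivity
    have h3 := sq_nonneg
      (2 * al 3 5 (3 + 2 * (3 + t)) * l + be 3 5 (3 + 2 * (3 + t)))
    linarith

set_option maxRecDepth 100000 in
theorem cf3_6 : ∀ e : ℕ, e < 5 → ∀ l : ℕ, l < 15 → e < 2 ∨ l < 1 ∨
    Fxy 3 6 (3 + 3 * (e : ℤ)) (l : ℤ) ≠ 0 := by
  decide +kernel

theorem f3_6 (e l : ℤ) (he : 2 ≤ e) (hl : 1 ≤ l) (h : Fxy 3 6 (3 + 3 * e) l = 0) :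
    False := by
  by_cases hE : e < 5
  · by_cases hL : l < 15
    · obtain ⟨e', rfl⟩ := Int.eq_ofNat_of_zero_le (by linarith : 0 ≤ e)
      obtain ⟨l', rfl⟩ := Int.eq_ofNat_of_zero_le (by linarith : 0 ≤ l)
      rcases cf3_6 e' (by exact_mod_cast hE) l' (by exact_mod_cast hL) with h1 | h1 | h1
      · omega
      · omega
      · exact h1 h
    · obtain ⟨u, hu, rfl⟩ : ∃ u : ℤ, 0 ≤ u ∧ l = 15 + u := ⟨l - 15, by linarith, by ring⟩
      unfold Fxy al be ga at h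
      have h2 : 0 ≤ u ^ 2 := by positivity
      interval_cases e <;> (ring_nf at h; linarith)
  · obtain ⟨t, ht, rfl⟩ : ∃ t : ℤ, 0 ≤ t ∧ e = 5 + t := ⟨e - 5, by linarith, by ring⟩
    have h1 : (2 * al 3 6 (3 + 3 * (5 + t)) * l + be 3 6 (3 + 3 * (5 + t))) ^ 2
        = be 3 6 (3 + 3 * (5 + t)) ^ 2
          - 4 * al 3 6 (3 + 3 * (5 + t)) * ga 3 6 (3 + 3 * (5 + t)) := by
      unfold Fxy at h
      linear_combination (4 * al 3 6 (3 + 3 * (5 + t))) * h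
    have h2 : 0 < -(be 3 6 (3 + 3 * (5 + t)) ^ 2
          - 4 * al 3 6 (3 + 3 * (5 + t)) * ga 3 6 (3 + 3 * (5 + t))) := by
      unfold al be ga
      ring_nf
      positivity
    have h3 := sq_nonneg
      (2 * al 3 6 (3 + 3 * (5 + t)) * l + be 3 6 (3 + 3 * (5 + t)))
    linarith

set_option maxRecDepth 100000 in
theorem cf3_7 : ∀ e : ℕ, e < 13 → ∀ l : ℕ, l < 37 → e < 2 ∨ l < 1 ∨
    Fxy 3 7 (3 + 4 * (e : ℤ)) (l : ℤ) ≠ 0 := by
  decide +kernel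

theorem f3_7 (e l : ℤ) (he : 2 ≤ e) (hl : 1 ≤ l) (h : Fxy 3 7 (3 + 4 * e) l = 0) :
    False := by
  by_cases hE : e < 13
  · by_cases hL : l < 37
    · obtain ⟨e', rfl⟩ := Int.eq_ofNat_of_zero_le (by linarith : 0 ≤ e)
      obtain ⟨l', rfl⟩ := Int.eq_ofNat_of_zero_le (by linarith : 0 ≤ l)
      rcases cf3_7 e' (by exact_mod_cast hE) l' (by exact_mod_cast hL) with h1 | h1 | h1
      · omega
      · omega
      · exact h1 h
    · obtain ⟨u, hu, rfl⟩ : ∃ u : ℤ, 0 ≤ u ∧ l = 37 + u := ⟨l - 37, by linarith, by ring⟩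
      unfold Fxy al be ga at h
      have h2 : 0 ≤ u ^ 2 := by positivity
      interval_cases e <;> (ring_nf at h; linarith)
  · obtain ⟨t, ht, rfl⟩ : ∃ t : ℤ, 0 ≤ t ∧ e = 13 + t := ⟨e - 13, by linarith, by ring⟩
    have h1 : (2 * al 3 7 (3 + 4 * (13 + t)) * l + be 3 7 (3 + 4 * (13 + t))) ^ 2
        = be 3 7 (3 + 4 * (13 + t)) ^ 2
          - 4 * al 3 7 (3 + 4 * (13 + t)) * ga 3 7 (3 + 4 * (13 + t)) := by
      unfold Fxy at h
      linear_combination (4 * al 3 7 (3 + 4 * (13 + t))) * h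
    have h2 : 0 < -(be 3 7 (3 + 4 * (13 + t)) ^ 2
          - 4 * al 3 7 (3 + 4 * (13 + t)) * ga 3 7 (3 + 4 * (13 + t))) := by
      unfold al be ga
      ring_nf
      positivity
    have h3 := sq_nonneg
      (2 * al 3 7 (3 + 4 * (13 + t)) * l + be 3 7 (3 + 4 * (13 + t)))
    linarith

set_option maxRecDepth 100000 in
theorem cf3_8 : ∀ e : ℕ, e < 79 → ∀ l : ℕ, l < 18 → e < 2 ∨ l < 1 ∨
    Fxy 3 8 (3 + 5 * (e : ℤ)) (l : ℤ) ≠ 0 := by
  decide +kernel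

theorem f3_8 (e l : ℤ) (he : 2 ≤ e) (hl : 1 ≤ l) (h : Fxy 3 8 (3 + 5 * e) l = 0) :
    False := by
  by_cases hL : l < 18
  · by_cases hE : e < 79
    · obtain ⟨e', rfl⟩ := Int.eq_ofNat_of_zero_le (by linarith : 0 ≤ e)
      obtain ⟨l', rfl⟩ := Int.eq_ofNat_of_zero_le (by linarith : 0 ≤ l)
      rcases cf3_8 e' (by exact_mod_cast hE) l' (by exact_mod_cast hL) with h1 | h1 | h1
      · omega
      · omega
      · exact h1 h
    · obtain ⟨t, ht, rfl⟩ : ∃ t : ℤ, 0 ≤ t ∧ e = 79 + t := ⟨e - 79, by linarith, by ring⟩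
      unfold Fxy al be ga at h
      have h2 : 0 ≤ t ^ 2 := by positivity
      have h3 : 0 ≤ t ^ 3 := by positivity
      interval_cases l <;> (ring_nf at h; linarith)
  · obtain ⟨t, ht, rfl⟩ : ∃ t : ℤ, 0 ≤ t ∧ e = 2 + t := ⟨e - 2, by linarith, by ring⟩
    obtain ⟨u, hu, rfl⟩ : ∃ u : ℤ, 0 ≤ u ∧ l = 18 + u := ⟨l - 18, by linarith, by ring⟩
    have h1 : 0 < Fxy 3 8 (3 + 5 * (2 + t)) (18 + u) := by
      unfold Fxy al be ga
      ring_nf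
      positivity
    linarith

set_option maxRecDepth 100000 in
theorem cf3_9 : ∀ e : ℕ, e < 29 → ∀ l : ℕ, l < 15 → e < 2 ∨ l < 1 ∨
    Fxy 3 9 (3 + 6 * (e : ℤ)) (l : ℤ) ≠ 0 := by
  decide +kernel

theorem f3_9 (e l : ℤ) (he : 2 ≤ e) (hl : 1 ≤ l) (h : Fxy 3 9 (3 + 6 * e) l = 0) :
    False := by
  by_cases hL : l < 15
  · by_cases hE : e < 29
    · obtain ⟨e', rfl⟩ := Int.eq_ofNat_of_zero_le (by linarith : 0 ≤ e)
      obtain ⟨l', rfl⟩ := Int.eq_ofNat_of_zero_le (by linarith : 0 ≤ l)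
      rcases cf3_9 e' (by exact_mod_cast hE) l' (by exact_mod_cast hL) with h1 | h1 | h1
      · omega
      · omega
      · exact h1 h
    · obtain ⟨t, ht, rfl⟩ : ∃ t : ℤ, 0 ≤ t ∧ e = 29 + t := ⟨e - 29, by linarith, by ring⟩
      unfold Fxy al be ga at h
      have h2 : 0 ≤ t ^ 2 := by positivity
      have h3 : 0 ≤ t ^ 3 := by positivity
      interval_cases l <;> (ring_nf at h; linarith)
  · obtain ⟨t, ht, rfl⟩ : ∃ t : ℤ, 0 ≤ t ∧ e = 2 + t := ⟨e - 2, by linarith, by ring⟩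
    obtain ⟨u, hu, rfl⟩ : ∃ u : ℤ, 0 ≤ u ∧ l = 15 + u := ⟨l - 15, by linarith, by ring⟩
    have h1 : 0 < Fxy 3 9 (3 + 6 * (2 + t)) (15 + u) := by
      unfold Fxy al be ga
      ring_nf
      positivity
    linarith

set_option maxRecDepth 100000 in
theorem cf3_10 : ∀ e : ℕ, e < 25 → ∀ l : ℕ, l < 15 → e < 2 ∨ l < 1 ∨
    Fxy 3 10 (3 + 7 * (e : ℤ)) (l : ℤ) ≠ 0 := by
  decide +kernel

theorem f3_10 (e l : ℤ) (he : 2 ≤ e) (hl : 1 ≤ l) (h : Fxy 3 10 (3 + 7 * e) l = 0) :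
    False := by
  by_cases hL : l < 15
  · by_cases hE : e < 25
    · obtain ⟨e', rfl⟩ := Int.eq_ofNat_of_zero_le (by linarith : 0 ≤ e)
      obtain ⟨l', rfl⟩ := Int.eq_ofNat_of_zero_le (by linarith : 0 ≤ l)
      rcases cf3_10 e' (by exact_mod_cast hE) l' (by exact_mod_cast hL) with h1 | h1 | h1
      · omega
      · omega
      · exact h1 h
    · obtain ⟨t, ht, rfl⟩ : ∃ t : ℤ, 0 ≤ t ∧ e = 25 + t := ⟨e - 25, by linarith, by ring⟩
      unfold Fxy al be ga at h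
      have h2 : 0 ≤ t ^ 2 := by positivity
      have h3 : 0 ≤ t ^ 3 := by positivity
      interval_cases l <;> (ring_nf at h; linarith)
  · obtain ⟨t, ht, rfl⟩ : ∃ t : ℤ, 0 ≤ t ∧ e = 2 + t := ⟨e - 2, by linarith, by ring⟩
    obtain ⟨u, hu, rfl⟩ : ∃ u : ℤ, 0 ≤ u ∧ l = 15 + u := ⟨l - 15, by linarith, by ring⟩
    have h1 : 0 < Fxy 3 10 (3 + 7 * (2 + t)) (15 + u) := by
      unfold Fxy al be ga
      ring_nf
      positivity
    linarith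

set_option maxRecDepth 100000 in
theorem cf3_11 : ∀ e : ℕ, e < 11 → ∀ l : ℕ, l < 15 → e < 2 ∨ l < 1 ∨
    Fxy 3 11 (3 + 8 * (e : ℤ)) (l : ℤ) ≠ 0 := by
  decide +kernel

theorem f3_11 (e l : ℤ) (he : 2 ≤ e) (hl : 1 ≤ l) (h : Fxy 3 11 (3 + 8 * e) l = 0) :
    False := by
  by_cases hL : l < 15
  · by_cases hE : e < 11
    · obtain ⟨e', rfl⟩ := Int.eq_ofNat_of_zero_le (by linarith : 0 ≤ e)
      obtain ⟨l', rfl⟩ := Int.eq_ofNat_of_zero_le (by linarith : 0 ≤ l)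
      rcases cf3_11 e' (by exact_mod_cast hE) l' (by exact_mod_cast hL) with h1 | h1 | h1
      · omega
      · omega
      · exact h1 h
    · obtain ⟨t, ht, rfl⟩ : ∃ t : ℤ, 0 ≤ t ∧ e = 11 + t := ⟨e - 11, by linarith, by ring⟩
      unfold Fxy al be ga at h
      have h2 : 0 ≤ t ^ 2 := by positivity
      have h3 : 0 ≤ t ^ 3 := by positivity
      interval_cases l <;> (ring_nf at h; linarith)
  · obtain ⟨t, ht, rfl⟩ : ∃ t : ℤ, 0 ≤ t ∧ e = 2 + t := ⟨e - 2, by linarith, by ring⟩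
    obtain ⟨u, hu, rfl⟩ : ∃ u : ℤ, 0 ≤ u ∧ l = 15 + u := ⟨l - 15, by linarith, by ring⟩
    have h1 : 0 < Fxy 3 11 (3 + 8 * (2 + t)) (15 + u) := by
      unfold Fxy al be ga
      ring_nf
      positivity
    linarith

set_option maxRecDepth 100000 in
theorem cf3_12 : ∀ e : ℕ, e < 15 → ∀ l : ℕ, l < 16 → e < 2 ∨ l < 1 ∨
    Fxy 3 12 (3 + 9 * (e : ℤ)) (l : ℤ) ≠ 0 := by
  decide +kernel

theorem f3_12 (e l : ℤ) (he : 2 ≤ e) (hl : 1 ≤ l) (h : Fxy 3 12 (3 + 9 * e) l = 0) :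
    False := by
  by_cases hL : l < 16
  · by_cases hE : e < 15
    · obtain ⟨e', rfl⟩ := Int.eq_ofNat_of_zero_le (by linarith : 0 ≤ e)
      obtain ⟨l', rfl⟩ := Int.eq_ofNat_of_zero_le (by linarith : 0 ≤ l)
      rcases cf3_12 e' (by exact_mod_cast hE) l' (by exact_mod_cast hL) with h1 | h1 | h1
      · omega
      · omega
      · exact h1 h
    · obtain ⟨t, ht, rfl⟩ : ∃ t : ℤ, 0 ≤ t ∧ e = 15 + t := ⟨e - 15, by linarith, by ring⟩
      unfold Fxy al be ga at h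
      have h2 : 0 ≤ t ^ 2 := by positivity
      have h3 : 0 ≤ t ^ 3 := by positivity
      interval_cases l <;> (ring_nf at h; linarith)
  · obtain ⟨t, ht, rfl⟩ : ∃ t : ℤ, 0 ≤ t ∧ e = 2 + t := ⟨e - 2, by linarith, by ring⟩
    obtain ⟨u, hu, rfl⟩ : ∃ u : ℤ, 0 ≤ u ∧ l = 16 + u := ⟨l - 16, by linarith, by ring⟩
    have h1 : 0 < Fxy 3 12 (3 + 9 * (2 + t)) (16 + u) := by
      unfold Fxy al be ga
      ring_nf
      positivity
    linarith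

set_option maxRecDepth 100000 in
theorem cf3_13 : ∀ e : ℕ, e < 22 → ∀ l : ℕ, l < 17 → e < 2 ∨ l < 1 ∨
    Fxy 3 13 (3 + 10 * (e : ℤ)) (l : ℤ) ≠ 0 := by
  decide +kernel

theorem f3_13 (e l : ℤ) (he : 2 ≤ e) (hl : 1 ≤ l) (h : Fxy 3 13 (3 + 10 * e) l = 0) :
    False := by
  by_cases hL : l < 17
  · by_cases hE : e < 22
    · obtain ⟨e', rfl⟩ := Int.eq_ofNat_of_zero_le (by linarith : 0 ≤ e)
      obtain ⟨l', rfl⟩ := Int.eq_ofNat_of_zero_le (by linarith : 0 ≤ l)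
      rcases cf3_13 e' (by exact_mod_cast hE) l' (by exact_mod_cast hL) with h1 | h1 | h1
      · omega
      · omega
      · exact h1 h
    · obtain ⟨t, ht, rfl⟩ : ∃ t : ℤ, 0 ≤ t ∧ e = 22 + t := ⟨e - 22, by linarith, by ring⟩
      unfold Fxy al be ga at h
      have h2 : 0 ≤ t ^ 2 := by positivity
      have h3 : 0 ≤ t ^ 3 := by positivity
      interval_cases l <;> (ring_nf at h; linarith)
  · obtain ⟨t, ht, rfl⟩ : ∃ t : ℤ, 0 ≤ t ∧ e = 2 + t := ⟨e - 2, by linarith, by ring⟩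
    obtain ⟨u, hu, rfl⟩ : ∃ u : ℤ, 0 ≤ u ∧ l = 17 + u := ⟨l - 17, by linarith, by ring⟩
    have h1 : 0 < Fxy 3 13 (3 + 10 * (2 + t)) (17 + u) := by
      unfold Fxy al be ga
      ring_nf
      positivity
    linarith

set_option maxRecDepth 100000 in
theorem cf3_14 : ∀ e : ℕ, e < 42 → ∀ l : ℕ, l < 18 → e < 2 ∨ l < 1 ∨
    Fxy 3 14 (3 + 11 * (e : ℤ)) (l : ℤ) ≠ 0 := by
  decide +kernel

theorem f3_14 (e l : ℤ) (he : 2 ≤ e) (hl : 1 ≤ l) (h : Fxy 3 14 (3 + 11 * e) l = 0) :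
    False := by
  by_cases hL : l < 18
  · by_cases hE : e < 42
    · obtain ⟨e', rfl⟩ := Int.eq_ofNat_of_zero_le (by linarith : 0 ≤ e)
      obtain ⟨l', rfl⟩ := Int.eq_ofNat_of_zero_le (by linarith : 0 ≤ l)
      rcases cf3_14 e' (by exact_mod_cast hE) l' (by exact_mod_cast hL) with h1 | h1 | h1
      · omega
      · omega
      · exact h1 h
    · obtain ⟨t, ht, rfl⟩ : ∃ t : ℤ, 0 ≤ t ∧ e = 42 + t := ⟨e - 42, by linarith, by ring⟩
      unfold Fxy al be ga at h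
      have h2 : 0 ≤ t ^ 2 := by positivity
      have h3 : 0 ≤ t ^ 3 := by positivity
      interval_cases l <;> (ring_nf at h; linarith)
  · obtain ⟨t, ht, rfl⟩ : ∃ t : ℤ, 0 ≤ t ∧ e = 2 + t := ⟨e - 2, by linarith, by ring⟩
    obtain ⟨u, hu, rfl⟩ : ∃ u : ℤ, 0 ≤ u ∧ l = 18 + u := ⟨l - 18, by linarith, by ring⟩
    have h1 : 0 < Fxy 3 14 (3 + 11 * (2 + t)) (18 + u) := by
      unfold Fxy al be ga
      ring_nf
      positivity
    linarith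

set_option maxRecDepth 100000 in
theorem cf3_15 : ∀ e : ℕ, e < 213 → ∀ l : ℕ, l < 19 → e < 2 ∨ l < 1 ∨
    Fxy 3 15 (3 + 12 * (e : ℤ)) (l : ℤ) ≠ 0 := by
  decide +kernel

theorem f3_15 (e l : ℤ) (he : 2 ≤ e) (hl : 1 ≤ l) (h : Fxy 3 15 (3 + 12 * e) l = 0) :
    False := by
  by_cases hL : l < 19
  · by_cases hE : e < 213
    · obtain ⟨e', rfl⟩ := Int.eq_ofNat_of_zero_le (by linarith : 0 ≤ e)
      obtain ⟨l', rfl⟩ := Int.eq_ofNat_of_zero_le (by linarith : 0 ≤ l)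
      rcases cf3_15 e' (by exact_mod_cast hE) l' (by exact_mod_cast hL) with h1 | h1 | h1
      · omega
      · omega
      · exact h1 h
    · obtain ⟨t, ht, rfl⟩ : ∃ t : ℤ, 0 ≤ t ∧ e = 213 + t := ⟨e - 213, by linarith, by ring⟩
      unfold Fxy al be ga at h
      have h2 : 0 ≤ t ^ 2 := by positivity
      have h3 : 0 ≤ t ^ 3 := by positivity
      interval_cases l <;> (ring_nf at h; linarith)
  · obtain ⟨t, ht, rfl⟩ : ∃ t : ℤ, 0 ≤ t ∧ e = 2 + t := ⟨e - 2, by linarith, by ring⟩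
    obtain ⟨u, hu, rfl⟩ : ∃ u : ℤ, 0 ≤ u ∧ l = 19 + u := ⟨l - 19, by linarith, by ring⟩
    have h1 : 0 < Fxy 3 15 (3 + 12 * (2 + t)) (19 + u) := by
      unfold Fxy al be ga
      ring_nf
      positivity
    linarith

theorem small2 (y e l : ℤ) (hy : 2 < y) (hy2 : y ≤ 9) (he : 2 ≤ e) (hl : 1 ≤ l)
    (h : Fxy 2 y (2 + (y - 2) * e) l = 0) : y = 3 ∧ e = 2 := by
  interval_cases y
  · exact ⟨rfl, f2_3 e l he (by norm_num at h ⊢; exact h)⟩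
  · exact (f2_4 e l he hl (by norm_num at h ⊢; exact h)).elim
  · exact (f2_5 e l he hl (by norm_num at h ⊢; exact h)).elim
  · exact (f2_6 e l he hl (by norm_num at h ⊢; exact h)).elim
  · exact (f2_7 e l he hl (by norm_num at h ⊢; exact h)).elim
  · exact (f2_8 e l he hl (by norm_num at h ⊢; exact h)).elim
  · exact (f2_9 e l he hl (by norm_num at h ⊢; exact h)).elim

theorem small3 (y e l : ℤ) (hy : 3 < y) (hy2 : y ≤ 15) (he : 2 ≤ e) (hl : 1 ≤ l)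
    (h : Fxy 3 y (3 + (y - 3) * e) l = 0) : y = 4 ∧ e = 2 := by
  interval_cases y
  · exact ⟨rfl, f3_4 e l he (by norm_num at h ⊢; exact h)⟩
  · exact (f3_5 e l he hl (by norm_num at h ⊢; exact h)).elim
  · exact (f3_6 e l he hl (by norm_num at h ⊢; exact h)).elim
  · exact (f3_7 e l he hl (by norm_num at h ⊢; exact h)).elim
  · exact (f3_8 e l he hl (by norm_num at h ⊢; exact h)).elim
  · exact (f3_9 e l he hl (by norm_num at h ⊢; exact h)).elim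
  · exact (f3_10 e l he hl (by norm_num at h ⊢; exact h)).elim
  · exact (f3_11 e l he hl (by norm_num at h ⊢; exact h)).elim
  · exact (f3_12 e l he hl (by norm_num at h ⊢; exact h)).elim
  · exact (f3_13 e l he hl (by norm_num at h ⊢; exact h)).elim
  · exact (f3_14 e l he hl (by norm_num at h ⊢; exact h)).elim
  · exact (f3_15 e l he hl (by norm_num at h ⊢; exact h)).elim

end Pool.Agent.TH500.QS
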