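import Pool.Agent.TH500.QS.Small
import Pool.Agent.TH500.QS.Fin3

set_option autoImplicit false

namespace Pool.Agent.TH500.QS

open Finset
open Pool.Agent.TH413.QS

/-- The relation `Fxy = 0` from the polynomial relation. -/
lemma Fxy_zero (x y k l : ℤ) (hs : 0 < x + y - 1)
    (h : l * (k * ((x + y - 1) ^ 2 - 2 * (x * y)) - x * y * (x + y - 1 - 2)) *
        (((x + y - 1) * l - x * y) * (2 * (k - 1) * (k - 1) - (x + y - 1) * (k - 2))
          - (k - 1) * (k * ((x + y - 1) ^ 2 - 2 * (x * y)) - x * y * (x + y - 1 - 2)))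
      - (x + y - 1) * (k - 2) * ((k - x) * (k - y)) * ((x + y - 1) * l - x * y) ^ 2 = 0) :
    Fxy x y k l = 0 := by
  have hs0 : x + y - 1 ≠ 0 := hs.ne'
  apply mul_left_cancel₀ hs0
  rw [mul_zero, ← h]
  unfold Fxy al be ga
  ring

/-- In the trivial case `y = x + 1`, `k = x + 2` the number of points is at most `x + 4`. -/
lemma v_trivial (k x y v l l2 r b a c : ℤ) (hk3 : 3 ≤ k) (hv : k < v) (hl : 1 ≤ l)
    (hx : 1 ≤ x) (hy : y = x + 1) (hkx : k = x + 2)
    (e0 : 1 + a + c = b) (e1 : k + a * x + c * y = k * r)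
    (e2 : k * (k - 1) + a * (x * (x - 1)) + c * (y * (y - 1)) = k * (k - 1) * l2)
    (e3 : k * (k - 1) * (k - 2) + a * (x * (x - 1) * (x - 2)) + c * (y * (y - 1) * (y - 2))
      = k * (k - 1) * (k - 2) * l)
    (D2 : l2 * (k - 2) = l * (v - 2)) (D1 : r * (k - 1) = l2 * (v - 1)) (D0 : b * k = r * v) :
    v ≤ k + 2 := by
  have hk0 : k ≠ 0 := by omega
  have hvk : v - k ≠ 0 := by omega
  have E1 : k * (k - 1) * (l2 - 1) - (x + y - 1) * k * (r - 1) + x * y * (b - 1) = 0 := by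
    linear_combination (-1 : ℤ) * e2 + (x + y - 1) * e1 - x * y * e0
  have E2k : k * (k - 1) * (k - 2) * (l - 1) + (3 - x - y) * (k * (k - 1) * (l2 - 1))
      + (x - 1) * (y - 1) * (k * (r - 1)) = 0 := by
    linear_combination (-1 : ℤ) * e3 - (3 - x - y) * e2 - (x - 1) * (y - 1) * e1
  have E2 : (k - 1) * (k - 2) * (l - 1) + (3 - x - y) * ((k - 1) * (l2 - 1))
      + (x - 1) * (y - 1) * (r - 1) = 0 := by
    apply mul_left_cancel₀ hk0
    linear_combination E2k
  have E3 : k * (k - 1) * (l2 - l - 1) - (x + y - 1) * k * (r - l2 - 1) + x * y * (b - r - 1)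
      = 0 := by
    apply mul_left_cancel₀ hvk
    linear_combination (v - 2 * k) * E1 + E2k + k * (k - 1) * D2 - (x + y - 1) * k * D1
      + x * y * D0
  have E4' : (k - x) * (k - y) * l
      = (l2 - l) * ((x + y - 1) * k - x * y) - (r - l2) * (x * y) := by
    linear_combination E1 - E3
  have E5 : (k - x) * (k - y) = 2 * (k - 1) * (l2 - l) - (x + y - 1) * (r - l2) := by
    linear_combination E4' - E2
  have R1 : (k - 1) * (r - l2) = (l2 - l) * (v - 2) := by
    have hl0 : l ≠ 0 := by omega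
    apply mul_left_cancel₀ hl0
    linear_combination l * D1 - l2 * D2 + (l2 - l) * D2
  clear E1 E2k E2 E3 E4' e0 e1 e2 e3
  have hG : 0 < l2 - l := by
    have h1 : l * (k - 2) < l2 * (k - 2) := by
      rw [D2]
      exact mul_lt_mul_of_pos_left (by linarith) (by linarith)
    have := lt_of_mul_lt_mul_right h1 (by linarith)
    linarith
  obtain ⟨G, hGd⟩ : ∃ G, G = l2 - l := ⟨_, rfl⟩
  obtain ⟨H, hHd⟩ : ∃ H, H = r - l2 := ⟨_, rfl⟩
  rw [← hGd, ← hHd] at E5 R1
  rw [← hGd] at hG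
  subst hy
  subst hkx
  by_contra hcon
  push Not at hcon
  have h1 : (x + 1) * G - x * H = 1 := by
    apply mul_left_cancel₀ (show (2 : ℤ) ≠ 0 by norm_num)
    linear_combination (-1 : ℤ) * E5
  have h2 : G * (x + 3) ≤ (x + 1) * H := by
    have h20 : G * (x + 3) ≤ G * (v - 2) := mul_le_mul_of_nonneg_left (by linarith) hG.le
    have h21 : (x + 1) * H = G * (v - 2) := by linear_combination R1
    rw [h21]; exact h20
  have h3 : x * (G * (x + 3)) ≤ x * ((x + 1) * H) := mul_le_mul_of_nonneg_left h2 (by linarith)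
  have h4 : x * ((x + 1) * H) = (x + 1) * ((x + 1) * G - 1) := by
    linear_combination (-(x + 1)) * h1
  have h5 : x * (G * (x + 3)) = (x + 1) * ((x + 1) * G - 1) + (x - 1) * G + (x + 1) := by ring
  have h6 : 0 ≤ (x - 1) * G := mul_nonneg (by linarith) hG.le
  linarith

/-- The Goethals-Seidel divisibility for a quasi-symmetric 3-design. -/
theorem block_dvd {P : Type*} [Fintype P] [DecidableEq P] (B : Finset (Finset P))
    (k lam x y : ℕ) (hk : 3 ≤ k) (hkv : k < Fintype.card P)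
    (hB : ∀ b ∈ B, b.card = k) (h3 : ∀ T : Finset P, T.card = 3 → deg B T = lam)
    (hxy : x < y)
    (hint : ∀ b₁ ∈ B, ∀ b₂ ∈ B, b₁ ≠ b₂ → (b₁ ∩ b₂).card = x ∨ (b₁ ∩ b₂).card = y)
    (hx1 : ∃ b₁ ∈ B, ∃ b₂ ∈ B, b₁ ≠ b₂ ∧ (b₁ ∩ b₂).card = x)
    (hy1 : ∃ b₁ ∈ B, ∃ b₂ ∈ B, b₁ ≠ b₂ ∧ (b₁ ∩ b₂).card = y) :
    ((y : ℤ) - x) ∣ ((k : ℤ) - x) := by
  obtain ⟨b0, hb0, b0', hb0', hne0, hi0⟩ := hx1
  obtain ⟨b1, hb1, b1', hb1', hne1, hi1⟩ := hy1
  -- the counting equations
  obtain ⟨l2, r, hl2, hr, d2, d1, d0⟩ := basic B k lam hk hkv hB h3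
  have eqs : ∀ b ∈ B, (1 : ℤ) + cnt B b x + cnt B b y = B.card ∧
      (k : ℤ) + cnt B b x * x + cnt B b y * y = k * r ∧
      (k : ℤ) * (k - 1) + cnt B b x * (x * (x - 1)) + cnt B b y * (y * (y - 1))
        = k * (k - 1) * l2 := by
    intro b hb
    have hbk := hB b hb
    have s0 := sum_choose B k x y (by omega) b hb hbk hint 0
    have s1 := sum_choose B k x y (by omega) b hb hbk hint 1
    have s2 := sum_choose B k x y (by omega) b hb hbk hint 2
    rw [← sum_deg] at s1 s2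
    have t1 : ∑ T ∈ b.powersetCard 1, deg B T = k * r := by
      rw [Finset.sum_congr rfl (g := fun _ => r) (fun T hT => hr T (mem_powersetCard.1 hT).2),
        Finset.sum_const, card_powersetCard, hbk, smul_eq_mul, Nat.choose_one_right]
    have t2 : ∑ T ∈ b.powersetCard 2, deg B T = k.choose 2 * l2 := by
      rw [Finset.sum_congr rfl (g := fun _ => l2) (fun T hT => hl2 T (mem_powersetCard.1 hT).2),
        Finset.sum_const, card_powersetCard, hbk, smul_eq_mul]
    rw [t1] at s1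
    rw [t2] at s2
    simp only [Nat.choose_zero_right, Finset.sum_const, smul_eq_mul, mul_one] at s0
    simp only [Nat.choose_one_right] at s1
    have ck2 := choose_two_cast k
    have cx2 := choose_two_cast x
    have cy2 := choose_two_cast y
    have s2' : ((k.choose 2 : ℕ) : ℤ) * l2
        = (k.choose 2 : ℕ) + cnt B b x * (x.choose 2 : ℕ) + cnt B b y * (y.choose 2 : ℕ) := by
      exact_mod_cast s2
    refine ⟨by rw [s0]; push_cast; ring, ?_, ?_⟩
    · have : (k : ℤ) * r = k + cnt B b x * x + cnt B b y * y := by exact_mod_cast s1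
      linarith
    · linear_combination (-1 : ℤ) * ck2 - (cnt B b x : ℤ) * cx2 - (cnt B b y : ℤ) * cy2
        + (l2 : ℤ) * ck2 - 2 * s2'
  obtain ⟨e0, e1, e2⟩ := eqs b0 hb0
  obtain ⟨f0, f1, -⟩ := eqs b1 hb1
  have ha : 0 < cnt B b0 x := by
    unfold cnt
    exact card_pos.2 ⟨b0', mem_filter.2 ⟨mem_erase.2 ⟨hne0.symm, hb0'⟩, hi0⟩⟩
  have hc1 : 0 < cnt B b1 y := by
    unfold cnt
    exact card_pos.2 ⟨b1', mem_filter.2 ⟨mem_erase.2 ⟨hne1.symm, hb1'⟩, hi1⟩⟩
  have hxy' : (0 : ℤ) < (y : ℤ) - x := by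
    have : (x : ℤ) < y := by exact_mod_cast hxy
    linarith
  have hcc : (cnt B b0 y : ℤ) = cnt B b1 y := by
    have : ((cnt B b0 y : ℤ) - cnt B b1 y) * ((y : ℤ) - x) = 0 := by
      linear_combination e1 - f1 - (x : ℤ) * (e0 - f0)
    rcases mul_eq_zero.1 this with h | h
    · linarith
    · exact absurd h hxy'.ne'
  have hc : 0 < cnt B b0 y := by omega
  have D1 : (r : ℤ) * (k - 1) = l2 * ((Fintype.card P : ℤ) - 1) := by
    have h1 : ((k - 1 : ℕ) : ℤ) = (k : ℤ) - 1 := by omega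
    have h2 : ((Fintype.card P - 1 : ℕ) : ℤ) = (Fintype.card P : ℤ) - 1 := by omega
    rw [← h1, ← h2]
    exact_mod_cast d1
  have D0 : (B.card : ℤ) * k = r * (Fintype.card P : ℤ) := by exact_mod_cast d0
  obtain ⟨v, hv⟩ : ∃ v : ℤ, v = (Fintype.card P : ℤ) := ⟨_, rfl⟩
  obtain ⟨a, hadef⟩ : ∃ a : ℤ, a = (cnt B b0 x : ℤ) := ⟨_, rfl⟩
  obtain ⟨c, hcdef⟩ : ∃ c : ℤ, c = (cnt B b0 y : ℤ) := ⟨_, rfl⟩
  have ha' : 0 < a := by rw [hadef]; exact_mod_cast ha
  have hc' : 0 < c := by rw [hcdef]; exact_mod_cast hc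
  have hkv' : (k : ℤ) < v := by rw [hv]; exact_mod_cast hkv
  have hk' : (3 : ℤ) ≤ k := by exact_mod_cast hk
  rw [← hadef, ← hcdef] at e0 e1 e2
  rw [← hv] at D0 D1
  have hvar : (v - 1) * (a * c * ((y : ℤ) - x) ^ 2) = r * ((r : ℤ) - k) * (v - k) ^ 2 := by
    have i1 : a * c * ((y : ℤ) - x) ^ 2
        = (a + c) * (a * x ^ 2 + c * y ^ 2) - (a * x + c * y) ^ 2 := by ring
    have i2 : a + c = (B.card : ℤ) - 1 := by linarith
    have i3 : a * x + c * y = k * r - k := by linarith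
    have i4 : a * x ^ 2 + c * y ^ 2 = k * (k - 1) * l2 - k * (k - 1) + (k * r - k) := by
      linear_combination e2 + e1
    rw [i1, i2, i3, i4]
    have hk0 : (k : ℤ) ≠ 0 := by omega
    apply mul_left_cancel₀ hk0
    linear_combination ((v - 1) * (k * (k - 1) * l2 - k * (k - 1) + (k * r - k))) * D0
      - ((k : ℤ) * (k - 1) * (v * r - k)) * D1
  have hrk : (k : ℤ) < r := by
    have h1 : 0 < (v - 1) * (a * c * ((y : ℤ) - x) ^ 2) := by
      apply mul_pos (by linarith)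
      apply mul_pos (mul_pos ha' hc')
      positivity
    rw [hvar] at h1
    have h2 : 0 < (v - k) ^ 2 := by
      have : 0 < v - k := by linarith
      positivity
    have h3 : (0 : ℤ) < r * ((r : ℤ) - k) := (pos_iff_pos_of_mul_pos h1).2 h2
    have h4 : (0 : ℤ) ≤ r := by positivity
    by_contra hcon
    push Not at hcon
    have : (r : ℤ) * ((r : ℤ) - k) ≤ 0 := mul_nonpos_of_nonneg_of_nonpos h4 (by linarith)
    linarith
  have hbv : Fintype.card P < B.card := by
    have h1 : (k : ℤ) * v < B.card * k := by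
      rw [D0]
      exact mul_lt_mul_of_pos_right hrk (by linarith)
    have h2 : v < (B.card : ℤ) := by
      have h3 : v * (k : ℤ) < (B.card : ℤ) * k := by linarith
      exact lt_of_mul_lt_mul_right h3 (by linarith)
    rw [hv] at h2
    exact_mod_cast h2
  exact dvd_sub B k x y (by omega) hB hint hbv

/-- No nontrivial quasi-symmetric 3-design has smaller intersection number 2 or 3. -/
theorem no_small {P : Type*} [Fintype P] [DecidableEq P] (B : Finset (Finset P))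
    (k lam x y : ℕ) (hx : x = 2 ∨ x = 3) (hk : 3 < k) (hkv : k + 3 < Fintype.card P)
    (hB : ∀ b ∈ B, b.card = k) (h3 : ∀ T : Finset P, T.card = 3 → deg B T = lam)
    (hxy : x < y)
    (hint : ∀ b₁ ∈ B, ∀ b₂ ∈ B, b₁ ≠ b₂ → (b₁ ∩ b₂).card = x ∨ (b₁ ∩ b₂).card = y)
    (hx1 : ∃ b₁ ∈ B, ∃ b₂ ∈ B, b₁ ≠ b₂ ∧ (b₁ ∩ b₂).card = x)
    (hy1 : ∃ b₁ ∈ B, ∃ b₂ ∈ B, b₁ ≠ b₂ ∧ (b₁ ∩ b₂).card = y) : False := by
  have hx1' : 1 ≤ x := by omega
  have hy2 := (main B k lam x y hk.le (by omega) hB h3 hx1' hxy hint hx1 hy1).1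
  obtain ⟨hyk, hlam, l2, r, b, a, c, e0, e1, e2, e3, D2, D1, D0⟩ :=
    design_eqs B k lam x y hk.le (by omega) hB h3 hxy hint hy1
  have hdv := block_dvd B k lam x y hk.le (by omega) hB h3 hxy hint hx1 hy1
  have hk' : (3 : ℤ) ≤ k := by exact_mod_cast hk.le
  have hkv' : (k : ℤ) + 3 < Fintype.card P := by exact_mod_cast hkv
  have hlam' : (1 : ℤ) ≤ lam := by exact_mod_cast hlam
  have hyk' : (y : ℤ) < k := by exact_mod_cast hyk
  have hxy' : (x : ℤ) < y := by exact_mod_cast hxy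
  have hx' : (2 : ℤ) ≤ x := by
    rcases hx with rfl | rfl <;> norm_num
  have hy2' : (y : ℤ) ≤ x ^ 2 + x + 3 := by exact_mod_cast hy2
  obtain ⟨-, r2, -⟩ := relations2 k x y (Fintype.card P) lam l2 r b a c hk' (by linarith) hlam'
    (by linarith) hyk' (by linarith) e0 e1 e2 e3 D2 D1 D0
  have hF := Fxy_zero x y k lam (by linarith) r2
  obtain ⟨e, he⟩ := hdv
  have he2 : 2 ≤ e := by
    have h1 : ((y : ℤ) - x) * 1 < (y - x) * e := by
      rw [← he]; linarith
    have := lt_of_mul_lt_mul_left h1 (by linarith)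
    linarith
  have hke : (k : ℤ) = x + (y - x) * e := by linarith
  rw [hke] at hF
  have hfin : (y : ℤ) = x + 1 ∧ e = 2 := by
    rcases hx with rfl | rfl
    · have := small2 y e lam (by exact_mod_cast hxy) (by push_cast at hy2'; linarith) he2 hlam'
        (by exact_mod_cast hF)
      push_cast
      exact ⟨by linarith [this.1], this.2⟩
    · have := small3 y e lam (by exact_mod_cast hxy) (by push_cast at hy2'; linarith) he2 hlam'
        (by exact_mod_cast hF)
      push_cast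
      exact ⟨by linarith [this.1], this.2⟩
  obtain ⟨h1, h2⟩ := hfin
  have hkx : (k : ℤ) = x + 2 := by rw [hke, h1, h2]; ring
  have := v_trivial k x y (Fintype.card P) lam l2 r b a c hk' (by linarith) hlam' (by linarith) h1
    hkx e0 e1 e2 e3 D2 D1 D0
  linarith

end Pool.Agent.TH500.QS
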